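import Pool.Agent.H40.SLP.TrlA

/-!
# The trivial law of the thresholds: the new label at one sample
-/

set_option autoImplicit false

namespace Pool.PB.Trl

open Finset Real MvPolynomial
open Pool.Agent.H49.Ent Pool.Agent.H32.Dense Pool.STK Pool.KA Pool.KSAT Pool.K2S Pool.BFL
open Pool.Agent.H39.BFL Pool.FLF

variable {m J : ℕ} {ζ : Type}

/-- The rounded base position. -/
noncomputable def bh (i₁ : Fin m) (J r : ℕ) (y : (Fin m → ℤ) × (ℕ × ζ)) (j : Fin m) : ℝ :=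
  if j = i₁ then (y.2.1 : ℝ) / 2 ^ J else (y.1 j : ℝ) / 2 ^ r

/-- The new polynomial of the point. -/
noncomputable def Gn (i₁ : Fin m) (J r : ℕ) (G : (Fin m → ℤ) × (ℕ × ζ) → MvPolynomial (Fin m) ℝ)
    (y : (Fin m → ℤ) × (ℕ × ζ)) : MvPolynomial (Fin m) ℝ :=
  G y + C ((y.1 i₁ : ℝ) / 2 ^ r - eval (bh i₁ J r y) (G y))

theorem x_near (F : Fam m J) (r : ℕ) (ω : F.Ω) (j : Fin m) :
    |((F.X r ω j : ℤ) : ℝ) / 2 ^ r - F.x ω j| ≤ 1 / 2 ^ r := by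
  have hr0 : (0 : ℝ) < 2 ^ r := by positivity
  have a1 := Int.floor_le ((2 : ℝ) ^ r * F.x ω j)
  have a2 := Int.lt_floor_add_one ((2 : ℝ) ^ r * F.x ω j)
  have e : ((F.X r ω j : ℤ) : ℝ) / 2 ^ r - F.x ω j =
      (((⌊(2 : ℝ) ^ r * F.x ω j⌋ : ℤ) : ℝ) - 2 ^ r * F.x ω j) / 2 ^ r := by
    change ((⌊(2 : ℝ) ^ r * F.x ω j⌋ : ℤ) : ℝ) / 2 ^ r - F.x ω j = _
    field_simp
  rw [e, abs_div, abs_of_pos hr0]
  refine div_le_div_of_nonneg_right ?_ hr0.le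
  rw [abs_le]
  constructor <;> linarith

theorem bh_near (F : Fam m J) (i₁ : Fin m) (r : ℕ) (ω : F.Ω) (j : Fin m) :
    |bh i₁ J r (ptr F r ω) j - bp F i₁ ω j| ≤ 1 / 2 ^ r := by
  unfold bh bp
  by_cases h : j = i₁
  · rw [if_pos h, h, Function.update_self]
    have : ((ptr F r ω).2.1 : ℝ) / 2 ^ J - F.t ω = 0 := sub_self _
    rw [this, abs_zero]
    positivity
  · rw [if_neg h, Function.update_of_ne h]
    exact x_near F r ω j

theorem core (m K : ℕ) (hK : 1 ≤ K) : ∃ c : ℝ, 1 ≤ c ∧ ∀ (J : ℕ) (F : Fam m J) (i₁ : Fin m)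
    (r a w v P : ℕ) (ω : F.Ω) (G : (Fin m → ℤ) × (ℕ × F.ζ) → MvPolynomial (Fin m) ℝ)
    (H : ((Fin m → ℝ) × (Fin m → ℝ)) × F.ζ × ℕ → MvPolynomial (Fin m) ℝ) (c₀ M U : ℝ),
    (∀ y, (G y).totalDegree ≤ K) → (∀ s, (H s).totalDegree ≤ K) → w ≤ a → w ≤ J → a ≤ r →
    |F.x ω i₁ - eval (bp F i₁ ω) (G (ptr F r ω))| ≤ 1 / 2 ^ P →
    (∀ b : Fin m → ℝ, (∀ j, |b j - bp F i₁ ω j| ≤ 1 / 2 ^ a) →
      |eval b (G (ptr F r ω)) - eval b (H (slam F w ω))| ≤ 1 / 2 ^ P) →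
    (∀ b : Fin m → ℝ, (∀ j, |b j - bp F i₁ ω j| ≤ 1 / 2 ^ a) →
      |eval b (G (ptr F r ω)) - c₀| ≤ U) →
    (∀ τ ∈ Set.Icc (0 : ℝ) 1, |(qs i₁ w H (slam F w ω)).eval τ| ≤ M) →
    |F.x ω i₁ - eval (bp F i₁ ω) (Gn i₁ J r G (ptr F r ω))| ≤ (1 + c * U * 2 ^ a) / 2 ^ r ∧
    ∀ b : Fin m → ℝ, (∀ j, |b j - bp F i₁ ω j| ≤ 1 / 2 ^ (a + v)) →
      |eval b (Gn i₁ J r G (ptr F r ω)) - eval b (Hn i₁ H (slam F w ω))| ≤
        c * (1 / 2 ^ P) / 2 ^ v + c * M / 2 ^ v + (1 + c * U * 2 ^ a) / 2 ^ r := by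
  obtain ⟨c₁, hc₁, h₁⟩ := Pool.Agent.H40.SLP.ball_lip m K
  obtain ⟨c₂, hc₂, h₂⟩ := Pool.Agent.H40.SLP.lip_one K
  obtain ⟨c, hc⟩ : ∃ c, c = max c₁ c₂ := ⟨_, rfl⟩
  have hcc1 : c₁ ≤ c := by rw [hc]; exact le_max_left _ _
  have hcc2 : c₂ ≤ c := by rw [hc]; exact le_max_right _ _
  refine ⟨c, hc₁.trans hcc1, ?_⟩
  intro J F i₁ r a w v P ω G H c₀ M U hG hH hwa hwJ har hx hGH hU hM
  have ha0 : (0 : ℝ) < 2 ^ a := by positivity
  have hr0 : (0 : ℝ) < 2 ^ r := by positivity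
  have hU0 : 0 ≤ U := le_trans (abs_nonneg _) (hU (bp F i₁ ω) fun j => by
    rw [sub_self, abs_zero]; positivity)
  have hM0 : 0 ≤ M := le_trans (abs_nonneg _) (hM 0 (by simp))
  obtain ⟨g, hg⟩ : ∃ g, g = G (ptr F r ω) := ⟨_, rfl⟩
  obtain ⟨h, hh⟩ : ∃ h, h = H (slam F w ω) := ⟨_, rfl⟩
  rw [← hg] at hx hGH hU
  rw [← hh] at hGH
  -- the visible constant
  have herr : |F.x ω i₁ - eval (bp F i₁ ω) g -
      (((F.X r ω i₁ : ℤ) : ℝ) / 2 ^ r - eval (bh i₁ J r (ptr F r ω)) g)| ≤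
      (1 + c * U * 2 ^ a) / 2 ^ r := by
    have h3 := h₁ (g - C c₀) (bp F i₁ ω) (bh i₁ J r (ptr F r ω)) (1 / 2 ^ a) (1 / 2 ^ r) U
      ((totalDegree_sub _ _).trans (max_le (by rw [hg]; exact hG _) (by
        rw [totalDegree_C]; exact Nat.zero_le _))) (by positivity)
      (one_div_le_one_div_of_le (by positivity) (pow_le_pow_right₀ (by norm_num) har)) (by
        intro y hy
        rw [map_sub, eval_C]
        exact hU y hy) (bh_near F i₁ r ω)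
    rw [map_sub, map_sub, eval_C, eval_C] at h3
    have h4 := x_near F r ω i₁
    have h5 : c₁ * U * (1 / 2 ^ r / (1 / 2 ^ a)) ≤ c * U * 2 ^ a / 2 ^ r := by
      have h6 : c₁ * U * (1 / 2 ^ r / (1 / 2 ^ a)) = c₁ * (U * 2 ^ a / 2 ^ r) := by
        field_simp
      have h7 : c * U * 2 ^ a / 2 ^ r = c * (U * 2 ^ a / 2 ^ r) := by ring
      rw [h6, h7]
      exact mul_le_mul_of_nonneg_right hcc1 (by positivity)
    rw [abs_le] at h3 h4 ⊢
    rw [add_div]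
    constructor <;> linarith [h3.1, h3.2, h4.1, h4.2]
  have hGn : ∀ b, eval b (Gn i₁ J r G (ptr F r ω)) = eval b g +
      (((F.X r ω i₁ : ℤ) : ℝ) / 2 ^ r - eval (bh i₁ J r (ptr F r ω)) g) := by
    intro b
    unfold Gn
    rw [map_add, eval_C, ← hg]
    rfl
  refine ⟨?_, ?_⟩
  · rw [hGn]
    refine le_trans (le_of_eq ?_) herr
    congr 1
    ring
  · intro b hb
    rw [hGn, eval_Hn, ← hh]
    -- the difference of the two polynomials
    have h3 := h₁ (g - h) (bp F i₁ ω) b (1 / 2 ^ a) (1 / 2 ^ (a + v)) (1 / 2 ^ P)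
      ((totalDegree_sub _ _).trans (max_le (by rw [hg]; exact hG _) (by rw [hh]; exact hH _)))
      (by positivity)
      (one_div_le_one_div_of_le (by positivity) (pow_le_pow_right₀ (by norm_num) (by omega))) (by
        intro y hy
        rw [map_sub]
        exact hGH y hy) hb
    rw [map_sub, map_sub] at h3
    have h4 : c₁ * (1 / 2 ^ P) * (1 / 2 ^ (a + v) / (1 / 2 ^ a)) ≤ c * (1 / 2 ^ P) / 2 ^ v := by
      have h6 : c₁ * (1 / 2 ^ P) * (1 / 2 ^ (a + v) / (1 / 2 ^ a)) =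
          c₁ * (1 / 2 ^ P / (2 : ℝ) ^ v) := by
        rw [pow_add]
        field_simp
      have h7 : c * (1 / 2 ^ P) / 2 ^ v = c * (1 / 2 ^ P / (2 : ℝ) ^ v) := by ring
      rw [h6, h7]
      exact mul_le_mul_of_nonneg_right hcc1 (by positivity)
    -- the time
    have hw0 : (0 : ℝ) < 2 ^ w := by positivity
    have h5 : es i₁ H (slam F w ω) (F.t ω) = (qs i₁ w H (slam F w ω)).eval (rt F w ω) := by
      rw [eval_qs, ← t_rt F hwJ]
    have hb1 : |b i₁ - F.t ω| ≤ 1 / 2 ^ (a + v) := by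
      have := hb i₁
      unfold bp at this
      rwa [Function.update_self] at this
    obtain ⟨τ', hτ'⟩ : ∃ τ', τ' = rt F w ω + 2 ^ w * (b i₁ - F.t ω) := ⟨_, rfl⟩
    have h6 : es i₁ H (slam F w ω) (b i₁) = (qs i₁ w H (slam F w ω)).eval τ' := by
      rw [eval_qs, hτ']
      congr 1
      have h7 := t_rt F hwJ ω
      rw [eq_div_iff hw0.ne'] at h7 ⊢
      linear_combination h7
    have hd : 2 ^ w * |b i₁ - F.t ω| ≤ 1 / 2 ^ v := by
      calc 2 ^ w * |b i₁ - F.t ω| ≤ 2 ^ w * (1 / 2 ^ (a + v)) :=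
            mul_le_mul_of_nonneg_left hb1 hw0.le
        _ ≤ 2 ^ a * (1 / 2 ^ (a + v)) := mul_le_mul_of_nonneg_right
            (pow_le_pow_right₀ (by norm_num) hwa) (by positivity)
        _ = 1 / 2 ^ v := by
            rw [pow_add]
            field_simp
    have hv1 : (1 : ℝ) / 2 ^ v ≤ 1 := by
      rw [div_le_one (by positivity)]
      exact one_le_pow₀ (by norm_num)
    have hrt := rt_mem F w ω
    have hτ2 : |τ'| ≤ 2 := by
      rw [hτ']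
      refine (abs_add_le _ _).trans ?_
      rw [abs_mul, abs_of_pos hw0, abs_of_nonneg hrt.1]
      linarith [hrt.2]
    have h7 := h₂ (qs i₁ w H (slam F w ω)) M (natDegree_qs i₁ w hK H _ (hH _)) hM τ' (rt F w ω)
      hτ2 (by rw [abs_of_nonneg hrt.1]; linarith [hrt.2])
    have h8 : |τ' - rt F w ω| ≤ 1 / 2 ^ v := by
      rw [hτ']
      have : rt F w ω + 2 ^ w * (b i₁ - F.t ω) - rt F w ω = 2 ^ w * (b i₁ - F.t ω) := by ring
      rw [this, abs_mul, abs_of_pos hw0]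
      exact hd
    have h9 : c₂ * M * |τ' - rt F w ω| ≤ c * M / 2 ^ v := by
      calc c₂ * M * |τ' - rt F w ω| ≤ c * M * (1 / 2 ^ v) :=
            mul_le_mul (mul_le_mul_of_nonneg_right hcc2 hM0) h8 (abs_nonneg _)
              (mul_nonneg (by linarith) hM0)
        _ = _ := by ring
    rw [← h5, ← h6] at h7
    have h10 := es_at F i₁ w H ω
    rw [← hh] at h10
    have h3' := h3.trans h4
    have h7' := h7.trans h9
    rw [abs_le] at h3' h7' herr ⊢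
    constructor <;> linarith [h3'.1, h3'.2, h7'.1, h7'.2, herr.1, herr.2]

end Pool.PB.Trl
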