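import Pool.Agent.H40.SLP.TrlB

/-!
# The trivial law of the thresholds: the class level
-/

set_option autoImplicit false

namespace Pool.PB.Trl

open Finset Real MvPolynomial
open Pool.Agent.H49.Ent Pool.Agent.H32.Dense Pool.STK Pool.KA Pool.KSAT Pool.K2S Pool.BFL
open Pool.Agent.H39.BFL Pool.FLF

variable {m J : ℕ} {ζ : Type}

/-- The polynomial of the trivial label. -/
noncomputable def G0 (i₁ : Fin m) (r : ℕ) (y : (Fin m → ℤ) × (ℕ × ζ)) : MvPolynomial (Fin m) ℝ :=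
  C ((y.1 i₁ : ℝ) / 2 ^ r)

/-- The line polynomial of the trivial label: the position at the middle of the window. -/
noncomputable def H0 (i₁ : Fin m) (w : ℕ) (s : ((Fin m → ℝ) × (Fin m → ℝ)) × ζ × ℕ) :
    MvPolynomial (Fin m) ℝ := C (s.1.1 i₁ + ((s.2.2 : ℝ) + 1 / 2) / 2 ^ w * s.1.2 i₁)

/-- The trivial label. -/
theorem triv (F : Fam m J) (i₁ : Fin m) {r w : ℕ} (hPr : w + 1 ≤ r) (hw : w ≤ J) (ω : F.Ω) :
    |F.x ω i₁ - eval (bp F i₁ ω) (G0 i₁ r (ptr F r ω))| ≤ 1 / 2 ^ w ∧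
      ∀ b : Fin m → ℝ,
        |eval b (G0 i₁ r (ptr F r ω)) - eval b (H0 i₁ w (slam F w ω))| ≤ 1 / 2 ^ w := by
  have e1 : (1 : ℝ) / 2 ^ r ≤ 1 / 2 ^ (w + 1) := inv_mono hPr
  have e3 : (1 : ℝ) / 2 ^ (w + 1) = 1 / 2 ^ w / 2 := by rw [pow_succ]; field_simp
  have e4 : (0 : ℝ) < 1 / 2 ^ w := by positivity
  have h1 := x_near F r ω i₁
  have h2 : |F.x ω i₁ - (F.u ω i₁ + ((F.T1 w ω : ℝ) + 1 / 2) / 2 ^ w * F.d ω i₁)| ≤
      1 / 2 ^ w / 2 := by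
    have hw0 : (0 : ℝ) < 2 ^ w := by positivity
    have b1 := T1_real F hw ω
    have e : F.x ω i₁ - (F.u ω i₁ + ((F.T1 w ω : ℝ) + 1 / 2) / 2 ^ w * F.d ω i₁) =
        (2 ^ w * F.t ω - F.T1 w ω - 1 / 2) / 2 ^ w * F.d ω i₁ := by
      unfold Fam.x
      field_simp
      ring
    rw [e, abs_mul]
    have b2 : |(2 ^ w * F.t ω - F.T1 w ω - 1 / 2) / 2 ^ w| ≤ 1 / 2 ^ w / 2 := by
      rw [abs_div, abs_of_pos hw0, div_right_comm]
      refine div_le_div_of_nonneg_right ?_ hw0.le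
      rw [abs_le]
      constructor <;> linarith [b1.1, b1.2]
    calc _ ≤ 1 / 2 ^ w / 2 * 1 := mul_le_mul b2 (F.dir ω i₁) (abs_nonneg _) (by positivity)
      _ = _ := mul_one _
  unfold G0 H0
  refine ⟨?_, fun b => ?_⟩
  · rw [eval_C]
    change |F.x ω i₁ - ((F.X r ω i₁ : ℤ) : ℝ) / 2 ^ r| ≤ 1 / 2 ^ w
    rw [abs_sub_comm]
    linarith
  · rw [eval_C, eval_C]
    change |((F.X r ω i₁ : ℤ) : ℝ) / 2 ^ r -
      (F.u ω i₁ + ((F.T1 w ω : ℝ) + 1 / 2) / 2 ^ w * F.d ω i₁)| ≤ 1 / 2 ^ w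
    rw [abs_le] at h1 h2 ⊢
    constructor <;> linarith [h1.1, h1.2, h2.1, h2.2]

/-- The data of a label. -/
def LabE (F : Fam m J) (i₁ : Fin m) (r K a w P : ℕ)
    (G : (Fin m → ℤ) × (ℕ × F.ζ) → MvPolynomial (Fin m) ℝ)
    (H : ((Fin m → ℝ) × (Fin m → ℝ)) × F.ζ × ℕ → MvPolynomial (Fin m) ℝ) (A : F.Ω → Prop) : Prop :=
  (∀ y, (G y).totalDegree ≤ K) ∧ (∀ s, (H s).totalDegree ≤ K) ∧ ∀ ω, A ω →
    |F.x ω i₁ - eval (bp F i₁ ω) (G (ptr F r ω))| ≤ 1 / 2 ^ P ∧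
    ∀ b : Fin m → ℝ, (∀ j, |b j - bp F i₁ ω j| ≤ 1 / 2 ^ a) →
      |eval b (G (ptr F r ω)) - eval b (H (slam F w ω))| ≤ 1 / 2 ^ P

/-- The comparison with the trivial label, on most of the event. -/
def CmpT (F : Fam m J) (A : F.Ω → Prop) (i₁ : Fin m) (r K a w P : ℕ) (κ η : ℝ) : Prop :=
  ∀ (G : (Fin m → ℤ) × (ℕ × F.ζ) → MvPolynomial (Fin m) ℝ)
    (H : ((Fin m → ℝ) × (Fin m → ℝ)) × F.ζ × ℕ → MvPolynomial (Fin m) ℝ),
    LabE F i₁ r K a w P G H A → ∀ E : F.Ω → Prop, Sub E A →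
    Real.exp (-(κ * J)) * Pe F.p A ≤ Pe F.p E →
    ∃ ω, E ω ∧ ∀ b : Fin m → ℝ, (∀ j, |b j - bp F i₁ ω j| ≤ 1 / 2 ^ a) →
      |eval b (G (ptr F r ω)) - (((F.X r ω i₁ : ℤ) : ℝ) / 2 ^ r)| ≤
        (2 : ℝ) ^ (η * J) / 2 ^ (min P a)

/-- **The trivial law for one family.** -/
theorem trl_fam (m K : ℕ) (hK : 1 ≤ K) : ∃ c C₁ : ℝ, 1 ≤ c ∧ 1 ≤ C₁ ∧
    ∀ (J : ℕ) (F : Fam m J) (i₁ : Fin m) (r a w v P Q u : ℕ) (A : F.Ω → Prop) (κ η θ : ℝ)
      (hA : 0 < Pe F.p A), w ≤ a → a + v ≤ r → P + v ≤ r → a ≤ J → Q + u = P + v →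
      0 ≤ θ → (Fam.sub F A hA).Tm θ → C₁ * (θ + 1) ≤ ((J : ℝ) - w) * Real.log 2 →
      CmpT F A i₁ r K a w P κ η → Real.exp (-(κ * J)) ≤ 1 / 4 → 8 ≤ (2 : ℝ) ^ u →
      16 * c * (2 : ℝ) ^ (η * J) ≤ 2 ^ u → 16 * c * Real.exp (C₁ * (θ + 1)) ≤ 2 ^ u →
      Tb F i₁ r K a w P A →
      ∃ B : F.Ω → Prop, Sub B A ∧ Pe F.p A / 4 ≤ Pe F.p B ∧ Tb F i₁ r K (a + v) w Q B := by
  classical
  obtain ⟨c, hc, hcore⟩ := core m K hK
  obtain ⟨C₁, hC₁, hrem⟩ := rem_event (m := m) K hK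
  refine ⟨c, C₁, hc, hC₁, ?_⟩
  intro J F i₁ r a w v P Q u A κ η θ hA hwa har hPr haJ hQ hθ hTm hN hcmp hκ hu8 huη huθ hT
  obtain ⟨G, H, hG, hH, hGH⟩ := hT
  have hp := F.isLaw
  have hp0 := hp.nonneg
  have hLab : LabE F i₁ r K a w P G H A :=
    ⟨hG, hH, fun ω hω => ⟨(hGH ω hω).1, (hGH ω hω).2.2⟩⟩
  -- the samples where the comparison fails
  obtain ⟨E, hE⟩ : ∃ E : F.Ω → Prop, E = fun ω => A ω ∧ ¬ ∀ b : Fin m → ℝ,
      (∀ j, |b j - bp F i₁ ω j| ≤ 1 / 2 ^ a) →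
      |eval b (G (ptr F r ω)) - (((F.X r ω i₁ : ℤ) : ℝ) / 2 ^ r)| ≤
        (2 : ℝ) ^ (η * J) / 2 ^ (min P a) := ⟨_, rfl⟩
  have hEP : Pe F.p E < Real.exp (-(κ * J)) * Pe F.p A := by
    by_contra hcon
    obtain ⟨ω, hω, h1⟩ := hcmp G H hLab E (fun ω hω => by rw [hE] at hω; exact hω.1)
      (not_lt.1 hcon)
    rw [hE] at hω
    exact hω.2 h1
  -- Remez in time
  obtain ⟨B₁, hB₁A, hB₁P, hB₁⟩ := hrem J F i₁ A hA w H (2 / 2 ^ P) θ (hwa.trans haJ) hH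
    (by positivity) hθ hTm hN (fun ω hω => by
      obtain ⟨h1, -, h2⟩ := hGH ω hω
      have h3 := h2 (bp F i₁ ω) fun j => by rw [sub_self, abs_zero]; positivity
      have h4 : (2 : ℝ) / 2 ^ P = 1 / 2 ^ P + 1 / 2 ^ P := by ring
      rw [h4]
      rw [abs_le] at h1 h3 ⊢
      constructor <;> linarith [h1.1, h1.2, h3.1, h3.2])
  refine ⟨fun ω => B₁ ω ∧ ¬ E ω, fun ω hω => hB₁A ω hω.1, ?_, ?_⟩
  · have h1 : Pe F.p B₁ ≤ Pe F.p (fun ω => B₁ ω ∧ ¬ E ω) + Pe F.p E := by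
      rw [Pe_eq, Pe_eq, Pe_eq, ← Finset.sum_add_distrib]
      refine Finset.sum_le_sum fun ω _ => ?_
      have := hp0 ω
      by_cases h1 : B₁ ω <;> by_cases h2 : E ω <;> simp [h1, h2, this]
    have h2 : Real.exp (-(κ * J)) * Pe F.p A ≤ 1 / 4 * Pe F.p A :=
      mul_le_mul_of_nonneg_right hκ hA.le
    linarith
  · refine ⟨Gn i₁ J r G, Hn i₁ H, fun y => ?_, fun s => totalDegree_Hn i₁ hK H s (hH s),
      fun ω hω => ?_⟩
    · unfold Gn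
      refine (totalDegree_add _ _).trans (max_le (hG y) ?_)
      rw [totalDegree_C]
      exact Nat.zero_le _
    · have hAω := hB₁A ω hω.1
      obtain ⟨h1, h2, h3⟩ := hGH ω hAω
      have hcmpω : ∀ b : Fin m → ℝ, (∀ j, |b j - bp F i₁ ω j| ≤ 1 / 2 ^ a) →
          |eval b (G (ptr F r ω)) - (((F.X r ω i₁ : ℤ) : ℝ) / 2 ^ r)| ≤
            (2 : ℝ) ^ (η * J) / 2 ^ (min P a) := by
        by_contra hcon
        apply hω.2
        rw [hE]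
        exact ⟨hAω, hcon⟩
      obtain ⟨k1, k2⟩ := hcore J F i₁ r a w v P ω G H (((F.X r ω i₁ : ℤ) : ℝ) / 2 ^ r)
        (Real.exp (C₁ * (θ + 1)) * (2 / 2 ^ P)) ((2 : ℝ) ^ (η * J) / 2 ^ (min P a)) hG hH
        hwa (hwa.trans haJ) (by omega) h1 h3 hcmpω (hB₁ ω hω.1)
      -- sizes
      have hu0 : (0 : ℝ) < 2 ^ u := by positivity
      have hPv : (0 : ℝ) < 2 ^ (P + v) := by positivity
      have hQe : (1 : ℝ) / 2 ^ Q = 2 ^ u / 2 ^ (P + v) := by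
        rw [← hQ, pow_add]
        field_simp
      have hE0 : (0 : ℝ) < (2 : ℝ) ^ (η * J) := Real.rpow_pos_of_pos (by norm_num) _
      have hexp : (2 : ℝ) ^ a / (2 ^ (min P a) * 2 ^ r) ≤ 2 / 2 ^ (P + v) := by
        rw [div_le_div_iff₀ (by positivity) hPv, ← pow_add, ← pow_add, ← pow_succ']
        refine pow_le_pow_right₀ (by norm_num) ?_
        rcases le_total P a with h | h
        · rw [min_eq_left h]
          omega
        · rw [min_eq_right h]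
          omega
      have t1 : (1 + c * ((2 : ℝ) ^ (η * J) / 2 ^ (min P a)) * 2 ^ a) / 2 ^ r ≤
          (1 / 4) * (1 / 2 ^ Q) := by
        have e1 : (1 + c * ((2 : ℝ) ^ (η * J) / 2 ^ (min P a)) * 2 ^ a) / 2 ^ r =
            1 / 2 ^ r + c * (2 : ℝ) ^ (η * J) * (2 ^ a / (2 ^ (min P a) * 2 ^ r)) := by
          field_simp
        have e2 : (1 : ℝ) / 2 ^ r ≤ 1 / 2 ^ (P + v) := inv_mono hPr
        have e3 : c * (2 : ℝ) ^ (η * J) * (2 ^ a / (2 ^ (min P a) * 2 ^ r)) ≤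
            c * (2 : ℝ) ^ (η * J) * (2 / 2 ^ (P + v)) :=
          mul_le_mul_of_nonneg_left hexp (by positivity)
        have e4 : 1 / (2 : ℝ) ^ (P + v) ≤ 1 / 8 * (2 ^ u / 2 ^ (P + v)) := by
          rw [← mul_div_assoc]
          refine div_le_div_of_nonneg_right ?_ hPv.le
          linarith
        have e5 : c * (2 : ℝ) ^ (η * J) * (2 / 2 ^ (P + v)) ≤ 1 / 8 * (2 ^ u / 2 ^ (P + v)) := by
          rw [← mul_div_assoc, ← mul_div_assoc]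
          refine div_le_div_of_nonneg_right ?_ hPv.le
          linarith
        rw [e1, hQe]
        linarith
      have t2 : c * (1 / 2 ^ P) / 2 ^ v ≤ (1 / 4) * (1 / 2 ^ Q) := by
        have e1 : c * (1 / 2 ^ P) / (2 : ℝ) ^ v = c / 2 ^ (P + v) := by
          rw [pow_add]
          field_simp
        have e2 : c ≤ 1 / 16 * 2 ^ u := by
          have h4 : (1 : ℝ) ≤ Real.exp (C₁ * (θ + 1)) := by
            rw [Real.one_le_exp_iff]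
            have : 0 ≤ C₁ := by linarith
            positivity
          nlinarith
        rw [e1, hQe, ← mul_div_assoc]
        refine div_le_div_of_nonneg_right ?_ hPv.le
        linarith
      have t3 : c * (Real.exp (C₁ * (θ + 1)) * (2 / 2 ^ P)) / 2 ^ v ≤ (1 / 4) * (1 / 2 ^ Q) := by
        have e1 : c * (Real.exp (C₁ * (θ + 1)) * (2 / 2 ^ P)) / (2 : ℝ) ^ v =
            2 * c * Real.exp (C₁ * (θ + 1)) / 2 ^ (P + v) := by
          rw [pow_add]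
          field_simp
        rw [e1, hQe, ← mul_div_assoc]
        refine div_le_div_of_nonneg_right ?_ hPv.le
        linarith
      have hQ0 : (0 : ℝ) < 1 / 2 ^ Q := by positivity
      refine ⟨k1.trans (by linarith), fun j => ?_, fun b hb => (k2 b hb).trans (by linarith)⟩
      have h5 : pderiv j (Gn i₁ J r G (ptr F r ω)) = pderiv j (G (ptr F r ω)) := by
        unfold Gn
        rw [map_add, pderiv_C, add_zero]
      rw [h5]
      exact h2 j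

end Pool.PB.Trl
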