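import Pool.Agent.H40.SLP.TrlC
import Pool.Agent.H29.PB.Uniq
import Pool.Agent.H19.BFL.Stmts7

/-!
# The trivial law of the thresholds
-/

set_option autoImplicit false

namespace Pool.PB.Trl

open Finset Real MvPolynomial
open Pool.Agent.H49.Ent Pool.Agent.H32.Dense Pool.STK Pool.KA Pool.KSAT Pool.K2S Pool.BFL
open Pool.Agent.H39.BFL Pool.FLF

/-- **The trivial law at a fixed window**, for every mesh. -/
theorem trl {m : ℕ} {S : FCl m} (hS : SPS S (m - 2)) {h₁ X : ℝ} {K : ℕ} (hh : 0 < h₁)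
    (hX : 0 < X) (hK : 1 ≤ K) {N : ℕ} (hN : 1 ≤ N) (i₁ : Fin m) (ρ a w v P : ℕ) (hwa : w ≤ a)
    (hav : a + v ≤ ρ) (hPv : P + v ≤ ρ) (hρ : (ρ : ℝ) + X * N ≤ N) :
    Clg S (fun J F A => Ch F i₁ ⌊h₁ * J⌋₊ A →
      Tb F i₁ (ρ * (J / N)) K (a * (J / N)) (w * (J / N)) (P * (J / N)) A →
      Tb F i₁ (ρ * (J / N)) K ((a + v) * (J / N)) (w * (J / N)) ((P + v - 1) * (J / N)) A) := by
  classical
  have hN0 : (0 : ℝ) < N := by exact_mod_cast hN
  have hX1 : X ≤ 1 := by
    have h1 : (0 : ℝ) ≤ ρ := Nat.cast_nonneg ρ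
    have h2 : X * N ≤ 1 * N := by linarith only [hρ]
    exact le_of_mul_le_mul_right h2 hN0
  have hρN : ρ ≤ N := by
    have : (ρ : ℝ) ≤ N := by
      have : 0 ≤ X * N := by positivity
      linarith only [hρ, this]
    exact_mod_cast this
  have hnu : ∀ J n : ℕ, n ≤ N → n * (J / N) ≤ J := fun J n hn =>
    (Nat.mul_le_mul_right _ hn).trans (Nat.mul_div_le J N)
  rcases Nat.eq_zero_or_pos v with hv | hv
  · refine Clg.of one_pos 0 fun J _ F A _ _ h => ?_
    rw [hv, add_zero, add_zero]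
    exact h.mono le_rfl le_rfl le_rfl le_rfl (hnu J w (by omega))
      (Nat.mul_le_mul_right _ (by omega))
  obtain ⟨c, C₁, hc, hC₁, hfam⟩ := trl_fam m K hK
  obtain ⟨η, hη⟩ : ∃ η : ℝ, η = 1 / (4 * N) := ⟨_, rfl⟩
  have hη0 : 0 < η := by rw [hη]; positivity
  obtain ⟨κ₀, hκ₀, huq⟩ := uniq hS K hh hX hη0
  refine Clg.mp ?_ huq
  refine Clg.one ⟨1, fun J F _ A => Tb F i₁ (ρ * (J / N)) K ((a + v) * (J / N)) (w * (J / N))
    ((P + v - 1) * (J / N)) A, fun J F _ => Tb.hered _ _ _ _ _ _ _⟩ ?_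
  intro κ hκ
  have hl2 : 0 < Real.log 2 := Real.log_pos (by norm_num)
  obtain ⟨τ, hτ⟩ : ∃ τ : ℝ, τ = min (X * Real.log 2 / (12 * C₁)) (Real.log 2 / (24 * N * C₁)) :=
    ⟨_, rfl⟩
  have hC₁0 : 0 < C₁ := by linarith only [hC₁]
  have hτ0 : 0 < τ := by rw [hτ]; exact lt_min (by positivity) (by positivity)
  have hτ1 : 6 * C₁ * τ ≤ X * Real.log 2 / 2 := by
    have h1 : τ ≤ X * Real.log 2 / (12 * C₁) := by rw [hτ]; exact min_le_left _ _
    rw [le_div_iff₀ (by positivity)] at h1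
    linarith only [h1]
  have hτ2 : 6 * C₁ * τ ≤ Real.log 2 * η := by
    have h1 : τ ≤ Real.log 2 / (24 * N * C₁) := by rw [hτ]; exact min_le_right _ _
    rw [le_div_iff₀ (by positivity)] at h1
    rw [hη, mul_one_div, le_div_iff₀ (by positivity)]
    linarith only [h1]
  obtain ⟨n₀, hn₀⟩ : ∃ n₀ : ℕ, 16 * c * Real.exp C₁ ≤ 2 ^ n₀ := by
    obtain ⟨n, hn⟩ := pow_unbounded_of_one_lt (16 * c * Real.exp C₁) (one_lt_two (α := ℝ))
    exact ⟨n, hn.le⟩
  obtain ⟨J₁, hJ₁⟩ := exists_nat_ge (2 * C₁ / (X * Real.log 2) + 4 / κ + 4 / κ₀)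
  refine ⟨τ, hτ0, max (N * (4 * n₀ + 4)) (max J₁ 1), ?_⟩
  intro J hJ F A hSt hSb hU hCh hTb
  obtain ⟨u, hu⟩ : ∃ u, u = J / N := ⟨_, rfl⟩
  have hJ1 : N * (4 * n₀ + 4) ≤ J := (le_max_left _ _).trans hJ
  have hJ2 : J₁ ≤ J := ((le_max_left _ _).trans (le_max_right _ _)).trans hJ
  have hJ3 : (2 * C₁ / (X * Real.log 2) + 4 / κ + 4 / κ₀ : ℝ) ≤ J :=
    hJ₁.trans (by exact_mod_cast hJ2)
  have hJ0 : (0 : ℝ) ≤ J := Nat.cast_nonneg J
  have p1 : 0 ≤ 2 * C₁ / (X * Real.log 2) := by positivity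
  have p2 : 0 ≤ 4 / κ := by positivity
  have p3 : 0 ≤ 4 / κ₀ := by positivity
  have hu4 : 4 * n₀ + 4 ≤ u := by
    rw [hu, Nat.le_div_iff_mul_le (by omega)]
    calc (4 * n₀ + 4) * N = N * (4 * n₀ + 4) := mul_comm _ _
      _ ≤ J := hJ1
  have huJ : (J : ℝ) < N * (u + 1) := by
    have h1 := Nat.lt_mul_div_succ J (show 0 < N by omega)
    rw [← hu] at h1
    have h2 : ((J : ℕ) : ℝ) < ((N * (u + 1) : ℕ) : ℝ) := by exact_mod_cast h1
    push_cast at h2
    exact h2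
  have hNu : (N : ℝ) * u ≤ J := by
    have h1 := Nat.mul_div_le J N
    rw [← hu] at h1
    exact_mod_cast h1
  -- sizes
  have hηJ : η * J ≤ (u + 1) / 4 := by
    rw [hη, one_div_mul_eq_div, div_le_div_iff₀ (by positivity) (by norm_num)]
    nlinarith only [huJ]
  have hquart : (2 : ℝ) ^ n₀ * (2 : ℝ) ^ (η * J) ≤ 2 ^ u := by
    rw [← Real.rpow_natCast, ← Real.rpow_natCast, ← Real.rpow_add (by norm_num)]
    refine Real.rpow_le_rpow_of_exponent_le (by norm_num) ?_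
    have h1 : ((4 * n₀ + 4 : ℕ) : ℝ) ≤ u := by exact_mod_cast hu4
    push_cast at h1
    linarith only [hηJ, h1]
  have hE0 : (0 : ℝ) < (2 : ℝ) ^ (η * J) := Real.rpow_pos_of_pos (by norm_num) _
  have hτJ : Real.exp (C₁ * (6 * τ * J)) ≤ (2 : ℝ) ^ (η * J) := by
    rw [Real.rpow_def_of_pos (by norm_num)]
    refine Real.exp_le_exp.2 ?_
    have := mul_le_mul_of_nonneg_right hτ2 hJ0
    linarith only [this]
  have hA : 0 < Pe F.p A := lt_of_lt_of_le (Real.exp_pos _) hSt.2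
  have hTm := Pool.STPA.sub_Tm_of_reg (S.tr hSt.1) (S.tm hSt.1) (S.rb hSt.1) hA hSt.2
  have hθ : 4 * (τ * J) + τ * J + τ * J = 6 * τ * J := by ring
  rw [hθ] at hTm
  have hQ : (P + v - 1) * u + u = P * u + v * u := by
    have : P + v - 1 + 1 = P + v := by omega
    calc (P + v - 1) * u + u = (P + v - 1 + 1) * u := by ring
      _ = (P + v) * u := by rw [this]
      _ = _ := by ring
  have hau : ∀ n : ℕ, n ≤ ρ → ((n * u : ℕ) : ℝ) + X * J ≤ J := by
    intro n hn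
    have h1 : (n : ℝ) ≤ ρ := by exact_mod_cast hn
    have h2 : (n : ℝ) * u ≤ (1 - X) * (N * u) := by
      have : (n : ℝ) ≤ (1 - X) * N := by linarith only [hρ, h1]
      calc (n : ℝ) * u ≤ (1 - X) * N * u := mul_le_mul_of_nonneg_right this (Nat.cast_nonneg u)
        _ = _ := by ring
    have h3 : (1 - X) * (N * u) ≤ (1 - X) * J := mul_le_mul_of_nonneg_left hNu (by linarith only [hX1])
    push_cast
    linarith only [h2, h3]
  have hexpq : ∀ k : ℝ, 0 < k → 4 / k ≤ J → Real.exp (-(k * J)) ≤ 1 / 4 := by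
    intro k hk hkJ
    rw [div_le_iff₀ hk] at hkJ
    have h1 := Real.add_one_le_exp (k * J)
    have h2 : (4 : ℝ) ≤ Real.exp (k * J) := by linarith only [hkJ, h1]
    rw [Real.exp_neg, ← one_div]
    exact one_div_le_one_div_of_le (by norm_num) h2
  obtain ⟨B, hBA, hBP, hTB⟩ := hfam J F i₁ (ρ * u) (a * u) (w * u) (v * u) (P * u)
    ((P + v - 1) * u) u A κ₀ η (6 * τ * J) hA (Nat.mul_le_mul_right _ hwa)
    (by rw [← Nat.add_mul]; exact Nat.mul_le_mul_right _ hav)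
    (by rw [← Nat.add_mul]; exact Nat.mul_le_mul_right _ hPv)
    (by rw [hu]; exact hnu J a (by omega)) hQ (by positivity) hTm (by
      have h1 := hau w (by omega)
      have h2 : X * J ≤ (J : ℝ) - ((w * u : ℕ) : ℝ) := by linarith only [h1]
      have h3 := mul_le_mul_of_nonneg_right h2 hl2.le
      have h4 := mul_le_mul_of_nonneg_right hτ1 hJ0
      have h5 : C₁ ≤ X * Real.log 2 / 2 * J := by
        have h6 : 2 * C₁ / (X * Real.log 2) ≤ J := by linarith only [hJ3, p2, p3]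
        rw [div_le_iff₀ (by positivity)] at h6
        linarith only [h6]
      linarith only [h3, h4, h5]) (by
      intro G H hL E hEA hEP
      obtain ⟨ω, hω, h1⟩ := hU i₁ hCh E hEA hEP (ρ * u) (ρ * u) (a * u) (w * u) (a * u) (P * u)
        (a * u) G (G0 i₁ (ρ * u)) H (H0 i₁ (a * u)) (by rw [hu]; exact hnu J ρ hρN)
        (by rw [hu]; exact hnu J ρ hρN) (Nat.mul_le_mul_right _ hwa) le_rfl (hau a (by omega))
        ⟨hL.1, hL.2.1, fun ω hω => hL.2.2 ω (hEA ω hω)⟩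
        ⟨fun y => by
          unfold G0
          rw [totalDegree_C]
          exact Nat.zero_le _, fun s => by
          unfold H0
          rw [totalDegree_C]
          exact Nat.zero_le _, fun ω _ => by
          have h2 := triv F i₁ (r := ρ * u) (w := a * u) (by
            have h3 : (a + 1) * u ≤ ρ * u := Nat.mul_le_mul_right _ (by omega)
            have h4 : (a + 1) * u = a * u + u := by ring
            omega) (by rw [hu]; exact hnu J a (by omega)) ω
          exact ⟨h2.1, fun b _ => h2.2 b⟩⟩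
      refine ⟨ω, hω, fun b hb => ?_⟩
      have h2 := h1 1 le_rfl b hb
      rw [one_pow, one_mul] at h2
      unfold G0 at h2
      rw [eval_C] at h2
      exact h2) (hexpq κ₀ hκ₀ (by linarith only [hJ3, p1, p2])) (by
      have h1 : (2 : ℝ) ^ 4 ≤ 2 ^ u := pow_le_pow_right₀ (by norm_num) (by omega)
      linarith only [h1]) (by
      refine le_trans ?_ hquart
      refine mul_le_mul_of_nonneg_right (le_trans ?_ hn₀) hE0.le
      have h1 : (1 : ℝ) ≤ Real.exp C₁ := by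
        rw [Real.one_le_exp_iff]
        exact hC₁0.le
      nlinarith only [h1, hc]) (by
      refine le_trans ?_ hquart
      have h1 : C₁ * (6 * τ * J + 1) = C₁ + C₁ * (6 * τ * J) := by ring
      rw [h1, Real.exp_add, ← mul_assoc]
      exact mul_le_mul hn₀ hτJ (Real.exp_pos _).le (by positivity)) (by
      rw [hu]
      exact hTb)
  -- stability
  have h1 : (a + v) * u = a * u + v * u := Nat.add_mul a v u
  rcases hSb 0 with h | h
  · exact h
  · exfalso
    refine h B hBA ?_ ?_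
    · refine le_trans ?_ hBP
      have h2 := mul_le_mul_of_nonneg_right (hexpq κ hκ (by linarith only [hJ3, p1, p3])) hA.le
      linarith only [h2]
    · show Tb F i₁ (ρ * (J / N)) K ((a + v) * (J / N)) (w * (J / N)) ((P + v - 1) * (J / N)) B
      rw [← hu, h1]
      exact hTB

/-- The trivial law in the form of the board. -/
theorem trl_thm {m : ℕ} {S : FCl m} (hS : SPS S (m - 2)) : TRLS S := by
  intro h₁ X K hh hX hK
  exact ⟨1, fun N hN i₁ ρ a w v P hwa hav hPv hρ => trl hS hh hX hK hN i₁ ρ a w v P hwa hav hPv hρ⟩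

end Pool.PB.Trl
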