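import Pool.Agent.H40.SLP.Trl
import Pool.Agent.H76.SLP.Stmts

/-!
# RADS from the trivial law
-/

set_option autoImplicit false

namespace Pool.PB

open Finset Real
open Pool.Agent.H49.Ent Pool.Agent.H32.Dense Pool.STK Pool.KA Pool.KSAT Pool.K2S

/-- **RADS**: if the radius shrinks at a fixed window, then the precision increases. -/
theorem rads_thm {m : ℕ} {S : FCl m} (hS : SPS S (m - 2)) : RADS S := by
  intro h₁ X hh hX K hK
  exact ⟨1, fun N hN i₁ ρ a w v p hρ hwa hav hpv =>
    Trl.trl hS hh hX hK hN i₁ ρ a w v p hwa hav hpv hρ⟩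

end Pool.PB
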