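import Pool.Agent.H84.KBOX.BlkA
import Pool.Agent.H40.FR.Grid

/-!
# The trivial law of the thresholds: polynomials
-/

set_option autoImplicit false

namespace Pool.Agent.H40.SLP

open Finset

/-- Increments of powers. -/
theorem pow_incr (x y : ℝ) (hx : |x| ≤ 2) (hy : |y| ≤ 2) (j : ℕ) :
    |x ^ j - y ^ j| ≤ j * 2 ^ j * |x - y| := by
  induction j with
  | zero => simp
  | succ j ih =>
    have h1 : x ^ (j + 1) - y ^ (j + 1) = x * (x ^ j - y ^ j) + y ^ j * (x - y) := by ring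
    rw [h1]
    refine (abs_add_le _ _).trans ?_
    rw [abs_mul, abs_mul, abs_pow]
    have h2 : |x| * |x ^ j - y ^ j| ≤ 2 * (j * 2 ^ j * |x - y|) :=
      mul_le_mul hx ih (abs_nonneg _) (by norm_num)
    have h3 : |y| ^ j * |x - y| ≤ 2 ^ j * |x - y| :=
      mul_le_mul_of_nonneg_right (pow_le_pow_left₀ (abs_nonneg _) hy j) (abs_nonneg _)
    have h4 : (0 : ℝ) ≤ 2 ^ j * |x - y| := by positivity
    push_cast
    rw [pow_succ]
    nlinarith

/-- The increments of a polynomial which is bounded on the unit interval. -/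
theorem lip_one (K : ℕ) : ∃ C : ℝ, 1 ≤ C ∧ ∀ (q : Polynomial ℝ) (S : ℝ), q.natDegree ≤ K →
    (∀ t ∈ Set.Icc (0 : ℝ) 1, |q.eval t| ≤ S) → ∀ x y : ℝ, |x| ≤ 2 → |y| ≤ 2 →
      |q.eval x - q.eval y| ≤ C * S * |x - y| := by
  obtain ⟨C, hC, h⟩ := Pool.Agent.H40.FR.unit_coef K
  obtain ⟨A, hA⟩ : ∃ A : ℝ, A = ∑ j ∈ range (K + 1), (j : ℝ) * 2 ^ j := ⟨_, rfl⟩
  have hA0 : 0 ≤ A := by
    rw [hA]
    exact Finset.sum_nonneg fun j _ => by positivity
  refine ⟨C * A + 1, by nlinarith, ?_⟩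
  intro q S hq hS x y hx hy
  have hS0 : 0 ≤ S := le_trans (abs_nonneg _) (hS 0 (by simp))
  have h1 := h q S hq hS
  rw [Polynomial.eval_eq_sum_range' (Nat.lt_succ_of_le hq),
    Polynomial.eval_eq_sum_range' (Nat.lt_succ_of_le hq), ← Finset.sum_sub_distrib]
  refine (Finset.abs_sum_le_sum_abs _ _).trans ?_
  have h2 : ∑ j ∈ range (K + 1), |q.coeff j * x ^ j - q.coeff j * y ^ j| ≤
      ∑ j ∈ range (K + 1), (C * S) * ((j : ℝ) * 2 ^ j * |x - y|) := by
    refine Finset.sum_le_sum fun j _ => ?_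
    rw [← mul_sub, abs_mul]
    exact mul_le_mul (h1 j) (pow_incr x y hx hy j) (abs_nonneg _) (by positivity)
  refine h2.trans ?_
  rw [← Finset.mul_sum, ← Finset.sum_mul, ← hA]
  have h3 : 0 ≤ S * |x - y| := mul_nonneg hS0 (abs_nonneg _)
  nlinarith

/-- The increments of a polynomial which is bounded on a ball. -/
theorem ball_lip (m K : ℕ) : ∃ C : ℝ, 1 ≤ C ∧ ∀ (P : MvPolynomial (Fin m) ℝ)
    (x b : Fin m → ℝ) (ρ δ M : ℝ), P.totalDegree ≤ K → 0 < δ → δ ≤ ρ →
    (∀ y : Fin m → ℝ, (∀ j, |y j - x j| ≤ ρ) → |MvPolynomial.eval y P| ≤ M) →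
    (∀ j, |b j - x j| ≤ δ) →
    |MvPolynomial.eval b P - MvPolynomial.eval x P| ≤ C * M * (δ / ρ) := by
  obtain ⟨C, hC, h⟩ := lip_one K
  refine ⟨C, hC, ?_⟩
  intro P x b ρ δ M hP hδ hδρ hM hb
  have hρ : 0 < ρ := lt_of_lt_of_le hδ hδρ
  obtain ⟨g, hg⟩ : ∃ g : Fin m → Polynomial ℝ, g = fun j =>
      Polynomial.C (x j) + Polynomial.C ((b j - x j) * (ρ / δ)) * Polynomial.X := ⟨_, rfl⟩
  have hgd : ∀ j, (g j).natDegree ≤ 1 := by
    intro j
    rw [hg]
    refine (Polynomial.natDegree_add_le _ _).trans (max_le ?_ ?_)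
    · rw [Polynomial.natDegree_C]
      exact Nat.zero_le _
    · exact (Polynomial.natDegree_C_mul_le _ _).trans Polynomial.natDegree_X_le
  have hge : ∀ t, (MvPolynomial.aeval g P).eval t =
      MvPolynomial.eval (fun j => x j + (b j - x j) * (ρ / δ) * t) P := by
    intro t
    rw [Pool.KBX.eval_aeval_poly]
    congr 1
    congr 1
    funext j
    rw [hg]
    simp
  have h1 := h (MvPolynomial.aeval g P) M (Pool.KBX.natDegree_aeval_le P g hgd hP) (by
    intro t ht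
    rw [hge]
    refine hM _ fun j => ?_
    have h2 : x j + (b j - x j) * (ρ / δ) * t - x j = (b j - x j) * (ρ / δ * t) := by ring
    rw [h2, abs_mul, abs_of_nonneg (mul_nonneg (by positivity) ht.1)]
    calc |b j - x j| * (ρ / δ * t) ≤ δ * (ρ / δ * 1) :=
          mul_le_mul (hb j) (mul_le_mul_of_nonneg_left ht.2 (by positivity))
            (mul_nonneg (by positivity) ht.1) hδ.le
      _ = ρ := by field_simp) (δ / ρ) 0 (by
    rw [abs_of_nonneg (by positivity)]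
    have : δ / ρ ≤ 1 := by rw [div_le_one hρ]; exact hδρ
    linarith) (by simp)
  rw [hge, hge] at h1
  have e1 : (fun j => x j + (b j - x j) * (ρ / δ) * (δ / ρ)) = b := by
    funext j
    field_simp
    ring
  have e2 : (fun j => x j + (b j - x j) * (ρ / δ) * 0) = x := by
    funext j
    ring
  rw [e1, e2, sub_zero, abs_of_nonneg (show (0 : ℝ) ≤ δ / ρ by positivity)] at h1
  exact h1

end Pool.Agent.H40.SLP
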