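import Pool.Agent.H18.PB.Tb
import Pool.Agent.H81.SLP.Ctx
import Pool.Agent.H37.STPA.Reg2
import Pool.Agent.H40.BFL.VST
import Pool.Agent.H40.SLP.TrlP

/-!
# The trivial law of the thresholds at a fixed window

The graph of the new label passes through the sample; the line polynomial is corrected by a
polynomial in the time, so that the line lies on its graph.
-/

set_option autoImplicit false

namespace Pool.PB.Trl

open Finset Real MvPolynomial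
open Pool.Agent.H49.Ent Pool.Agent.H32.Dense Pool.STK Pool.KA Pool.KSAT Pool.K2S Pool.BFL
open Pool.Agent.H39.BFL Pool.FLF

variable {m J : ℕ} {ζ : Type}

/-- The base position of a line at the time `t`, with the time in the slot `i₁`. -/
noncomputable def bl (i₁ : Fin m) (s : ((Fin m → ℝ) × (Fin m → ℝ)) × ζ × ℕ) (t : ℝ) (j : Fin m) :
    ℝ := if j = i₁ then t else s.1.1 j + s.1.2 j * t

/-- The base position of a line, as polynomials in the time. -/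
noncomputable def blp (i₁ : Fin m) (s : ((Fin m → ℝ) × (Fin m → ℝ)) × ζ × ℕ) (j : Fin m) :
    MvPolynomial (Fin m) ℝ := if j = i₁ then X i₁ else C (s.1.1 j) + C (s.1.2 j) * X i₁

/-- The height of the line above the graph of `H`. -/
noncomputable def es (i₁ : Fin m) (H : ((Fin m → ℝ) × (Fin m → ℝ)) × ζ × ℕ → MvPolynomial (Fin m) ℝ)
    (s : ((Fin m → ℝ) × (Fin m → ℝ)) × ζ × ℕ) (t : ℝ) : ℝ :=
  s.1.1 i₁ + s.1.2 i₁ * t - eval (bl i₁ s t) (H s)

/-- The corrected polynomial of the line. -/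
noncomputable def Hn (i₁ : Fin m) (H : ((Fin m → ℝ) × (Fin m → ℝ)) × ζ × ℕ → MvPolynomial (Fin m) ℝ)
    (s : ((Fin m → ℝ) × (Fin m → ℝ)) × ζ × ℕ) : MvPolynomial (Fin m) ℝ :=
  H s + (C (s.1.1 i₁) + C (s.1.2 i₁) * X i₁ - bind₁ (blp i₁ s) (H s))

theorem eval_Hn (i₁ : Fin m)
    (H : ((Fin m → ℝ) × (Fin m → ℝ)) × ζ × ℕ → MvPolynomial (Fin m) ℝ)
    (s : ((Fin m → ℝ) × (Fin m → ℝ)) × ζ × ℕ) (b : Fin m → ℝ) :
    eval b (Hn i₁ H s) = eval b (H s) + es i₁ H s (b i₁) := by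
  have h1 : eval b (bind₁ (blp i₁ s) (H s)) = eval (bl i₁ s (b i₁)) (H s) := by
    rw [eval, eval₂Hom_bind₁]
    congr 1
    congr 1
    funext j
    show eval b (blp i₁ s j) = bl i₁ s (b i₁) j
    unfold blp bl
    split_ifs
    · rw [eval_X]
    · simp
  unfold Hn es
  rw [map_add, map_sub, h1, map_add, map_mul, eval_C, eval_C, eval_X]

theorem totalDegree_Hn (i₁ : Fin m) {K : ℕ} (hK : 1 ≤ K)
    (H : ((Fin m → ℝ) × (Fin m → ℝ)) × ζ × ℕ → MvPolynomial (Fin m) ℝ)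
    (s : ((Fin m → ℝ) × (Fin m → ℝ)) × ζ × ℕ) (hH : (H s).totalDegree ≤ K) :
    (Hn i₁ H s).totalDegree ≤ K := by
  have h0 : ∀ x : ℝ, (C x : MvPolynomial (Fin m) ℝ).totalDegree ≤ 1 := by
    intro x
    rw [totalDegree_C]
    exact Nat.zero_le _
  have h1 : ∀ x : ℝ, (C x * X i₁ : MvPolynomial (Fin m) ℝ).totalDegree ≤ 1 := by
    intro x
    refine (totalDegree_mul _ _).trans ?_
    rw [totalDegree_C, totalDegree_X]
  have h2 : ∀ j, (blp i₁ s j).totalDegree ≤ 1 := by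
    intro j
    unfold blp
    split_ifs
    · rw [totalDegree_X]
    · exact (totalDegree_add _ _).trans (max_le (h0 _) (h1 _))
  unfold Hn
  refine (totalDegree_add _ _).trans (max_le hH ?_)
  refine (totalDegree_sub _ _).trans (max_le ?_ ?_)
  · exact ((totalDegree_add _ _).trans (max_le (h0 _) (h1 _))).trans hK
  · exact (Pool.SLO.totalDegree_bind₁_le _ h2 _).trans hH

/-- The height of the line above the graph of `H`, as a polynomial in the relative time. -/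
noncomputable def qs (i₁ : Fin m) (w : ℕ)
    (H : ((Fin m → ℝ) × (Fin m → ℝ)) × ζ × ℕ → MvPolynomial (Fin m) ℝ)
    (s : ((Fin m → ℝ) × (Fin m → ℝ)) × ζ × ℕ) : Polynomial ℝ :=
  Polynomial.C (s.1.1 i₁) + Polynomial.C (s.1.2 i₁) *
    (Polynomial.C ((s.2.2 : ℝ) / 2 ^ w) + Polynomial.C (1 / 2 ^ w) * Polynomial.X) -
    aeval (fun j => if j = i₁ then
      (Polynomial.C ((s.2.2 : ℝ) / 2 ^ w) + Polynomial.C (1 / 2 ^ w) * Polynomial.X)
      else Polynomial.C (s.1.1 j) + Polynomial.C (s.1.2 j) *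
        (Polynomial.C ((s.2.2 : ℝ) / 2 ^ w) + Polynomial.C (1 / 2 ^ w) * Polynomial.X)) (H s)

theorem eval_qs (i₁ : Fin m) (w : ℕ)
    (H : ((Fin m → ℝ) × (Fin m → ℝ)) × ζ × ℕ → MvPolynomial (Fin m) ℝ)
    (s : ((Fin m → ℝ) × (Fin m → ℝ)) × ζ × ℕ) (τ : ℝ) :
    (qs i₁ w H s).eval τ = es i₁ H s (((s.2.2 : ℝ) + τ) / 2 ^ w) := by
  unfold qs es
  rw [Polynomial.eval_sub, Pool.KBX.eval_aeval_poly]
  have h1 : (Polynomial.C ((s.2.2 : ℝ) / 2 ^ w) +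
      Polynomial.C (1 / 2 ^ w) * Polynomial.X : Polynomial ℝ).eval τ =
      ((s.2.2 : ℝ) + τ) / 2 ^ w := by
    simp only [Polynomial.eval_add, Polynomial.eval_mul, Polynomial.eval_C, Polynomial.eval_X]
    ring
  congr 1
  · rw [Polynomial.eval_add, Polynomial.eval_mul, h1, Polynomial.eval_C, Polynomial.eval_C]
  · congr 1
    congr 1
    funext j
    unfold bl
    split_ifs
    · exact h1
    · rw [Polynomial.eval_add, Polynomial.eval_mul, h1, Polynomial.eval_C, Polynomial.eval_C]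

theorem natDegree_qs (i₁ : Fin m) (w : ℕ) {K : ℕ} (hK : 1 ≤ K)
    (H : ((Fin m → ℝ) × (Fin m → ℝ)) × ζ × ℕ → MvPolynomial (Fin m) ℝ)
    (s : ((Fin m → ℝ) × (Fin m → ℝ)) × ζ × ℕ) (hH : (H s).totalDegree ≤ K) :
    (qs i₁ w H s).natDegree ≤ K := by
  have h1 : (Polynomial.C ((s.2.2 : ℝ) / 2 ^ w) +
      Polynomial.C (1 / 2 ^ w) * Polynomial.X : Polynomial ℝ).natDegree ≤ 1 := by
    refine (Polynomial.natDegree_add_le _ _).trans (max_le ?_ ?_)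
    · rw [Polynomial.natDegree_C]
      exact Nat.zero_le _
    · exact (Polynomial.natDegree_C_mul_le _ _).trans Polynomial.natDegree_X_le
  have h2 : ∀ x y : ℝ, (Polynomial.C x + Polynomial.C y * (Polynomial.C ((s.2.2 : ℝ) / 2 ^ w) +
      Polynomial.C (1 / 2 ^ w) * Polynomial.X) : Polynomial ℝ).natDegree ≤ 1 := by
    intro x y
    refine (Polynomial.natDegree_add_le _ _).trans (max_le ?_ ?_)
    · rw [Polynomial.natDegree_C]
      exact Nat.zero_le _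
    · exact (Polynomial.natDegree_C_mul_le _ _).trans h1
  unfold qs
  refine (Polynomial.natDegree_sub_le _ _).trans (max_le ((h2 _ _).trans hK) ?_)
  refine Pool.KBX.natDegree_aeval_le _ _ (fun j => ?_) hH
  split_ifs
  · exact h1
  · exact h2 _ _

/-- The base position of the sample. -/
theorem bl_bp (F : Fam m J) (i₁ : Fin m) (w : ℕ) (ω : F.Ω) :
    bl i₁ (slam F w ω) (F.t ω) = bp F i₁ ω := by
  funext j
  unfold bl bp
  by_cases h : j = i₁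
  · rw [if_pos h, h, Function.update_self]
  · rw [if_neg h, Function.update_of_ne h]
    show F.u ω j + F.d ω j * F.t ω = F.u ω j + F.t ω * F.d ω j
    ring

/-- The height at the sample. -/
theorem es_at (F : Fam m J) (i₁ : Fin m) (w : ℕ)
    (H : ((Fin m → ℝ) × (Fin m → ℝ)) × F.ζ × ℕ → MvPolynomial (Fin m) ℝ) (ω : F.Ω) :
    es i₁ H (slam F w ω) (F.t ω) = F.x ω i₁ - eval (bp F i₁ ω) (H (slam F w ω)) := by
  unfold es
  rw [bl_bp]
  congr 1
  show F.u ω i₁ + F.d ω i₁ * F.t ω = F.u ω i₁ + F.t ω * F.d ω i₁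
  ring

/-- The relative time of the sample. -/
noncomputable def rt (F : Fam m J) (w : ℕ) (ω : F.Ω) : ℝ :=
  ((F.T ω % 2 ^ (J - w) : ℕ) : ℝ) / ((2 ^ (J - w) : ℕ) : ℝ)

theorem rt_mem (F : Fam m J) (w : ℕ) (ω : F.Ω) : rt F w ω ∈ Set.Icc (0 : ℝ) 1 := by
  refine ⟨by unfold rt; positivity, ?_⟩
  unfold rt
  rw [div_le_one (by positivity)]
  have := (Nat.mod_lt (F.T ω) (y := 2 ^ (J - w)) (by positivity)).le
  exact_mod_cast this

theorem t_rt (F : Fam m J) {w : ℕ} (hw : w ≤ J) (ω : F.Ω) :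
    F.t ω = (((slam F w ω).2.2 : ℝ) + rt F w ω) / 2 ^ w := by
  show (F.T ω : ℝ) / 2 ^ J = (((F.T ω / 2 ^ (J - w) : ℕ) : ℝ) +
    ((F.T ω % 2 ^ (J - w) : ℕ) : ℝ) / ((2 ^ (J - w) : ℕ) : ℝ)) / 2 ^ w
  have hJJ : (2 : ℝ) ^ J = 2 ^ (J - w) * 2 ^ w := by rw [← pow_add, Nat.sub_add_cancel hw]
  have h1 : (F.T ω : ℝ) = 2 ^ (J - w) * ((F.T ω / 2 ^ (J - w) : ℕ) : ℝ) +
      ((F.T ω % 2 ^ (J - w) : ℕ) : ℝ) := by
    have := Nat.div_add_mod (F.T ω) (2 ^ (J - w))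
    exact_mod_cast this.symm
  rw [h1, hJJ]
  push_cast
  field_simp

/-- Complementary events. -/
theorem Pe_compl {Ω : Type} [Fintype Ω] {p : Ω → ℝ} (hp : IsLaw p) (E : Ω → Prop) :
    Pe p E = 1 - Pb p (fun ω => ¬ E ω) := by
  classical
  rw [Pe_eq]
  unfold Pb
  rw [← hp.sum_one, ← Finset.sum_sub_distrib]
  refine Finset.sum_congr rfl fun ω _ => ?_
  by_cases h : E ω
  · simp [h]
  · simp [h]

/-- **Remez inequality in the time**, on an event. -/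
theorem rem_event (K : ℕ) (hK : 1 ≤ K) : ∃ C₁ : ℝ, 1 ≤ C₁ ∧ ∀ (J : ℕ) (F : Fam m J) (i₁ : Fin m)
    (A : F.Ω → Prop) (hA : 0 < Pe F.p A) (w : ℕ)
    (H : ((Fin m → ℝ) × (Fin m → ℝ)) × F.ζ × ℕ → MvPolynomial (Fin m) ℝ) (S₀ θ : ℝ),
    w ≤ J → (∀ s, (H s).totalDegree ≤ K) → 0 < S₀ → 0 ≤ θ → (Fam.sub F A hA).Tm θ →
    C₁ * (θ + 1) ≤ ((J : ℝ) - w) * Real.log 2 →
    (∀ ω, A ω → |F.x ω i₁ - eval (bp F i₁ ω) (H (slam F w ω))| ≤ S₀) →
    ∃ B : F.Ω → Prop, Sub B A ∧ Pe F.p A / 2 ≤ Pe F.p B ∧ ∀ ω, B ω →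
      ∀ τ ∈ Set.Icc (0 : ℝ) 1,
        |(qs i₁ w H (slam F w ω)).eval τ| ≤ Real.exp (C₁ * (θ + 1)) * S₀ := by
  classical
  obtain ⟨C₁, hC₁, hrem⟩ := Pool.BFL.Rem.rem_thm K
  refine ⟨C₁ * 2, by linarith, ?_⟩
  intro J F i₁ A hA w H S₀ θ hw hH hS₀ hθ hTm hN hAH
  have hq := (Fam.sub F A hA).isLaw
  have hM : C₁ * (θ + 1) / (1 / 2) = C₁ * 2 * (θ + 1) := by ring
  have hwt := Pool.Agent.H40.BFL.window_time hq (Fam.sub F A hA).T
    (fun ω => ((Fam.sub F A hA).l ω, (Fam.sub F A hA).Z ω)) J w hw (Fam.sub F A hA).tim θ hTm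
  have hCH : Real.log ((2 ^ (J - w) : ℕ) : ℝ) - θ ≤
      CH (Fam.sub F A hA).p (fun ω => (Fam.sub F A hA).T ω % 2 ^ (J - w))
        (slam (Fam.sub F A hA) w) := by
    rw [Nat.cast_pow, Real.log_pow, Nat.cast_ofNat, Nat.cast_sub hw]
    refine hwt.trans (le_of_eq ?_)
    refine CH_congr hq.nonneg (fun ω ω' _ _ h => (Prod.ext_iff.mp h).1)
      (fun ω ω' _ _ h => (Prod.ext_iff.mp h).1) ?_ ?_
    · intro ω ω' _ _ h
      simp only [Prod.mk.injEq] at h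
      obtain ⟨⟨h1, h2⟩, h3⟩ := h
      unfold slam
      exact Prod.ext h1 (Prod.ext h2 h3)
    · intro ω ω' _ _ h
      have h1 : (Fam.sub F A hA).l ω = (Fam.sub F A hA).l ω' := congrArg (fun s => s.1) h
      have h2 : (Fam.sub F A hA).Z ω = (Fam.sub F A hA).Z ω' := congrArg (fun s => s.2.1) h
      have h3 : (Fam.sub F A hA).T1 w ω = (Fam.sub F A hA).T1 w ω' :=
        congrArg (fun s => s.2.2) h
      exact Prod.ext (Prod.ext h1 h2) h3
  have hP0 : Pb (Fam.sub F A hA).p (fun _ => ¬ True) ≤ (1 / 2) / 4 := by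
    unfold Pb
    simp only [not_true, if_false, Finset.sum_const_zero]
    norm_num
  have h1 := hrem (Fam.sub F A hA).Ω _ (Fam.sub F A hA).p (2 ^ (J - w))
    (fun ω => (Fam.sub F A hA).T ω % 2 ^ (J - w)) (slam (Fam.sub F A hA) w)
    (fun s => qs i₁ w H s) (fun _ => True) (fun _ => S₀) θ (1 / 2) hq
    (fun ω => Nat.mod_lt _ (by positivity)) (fun s => natDegree_qs i₁ w hK H s (hH s)) hθ
    (by norm_num) (by norm_num) hCH hP0 (fun _ => hS₀) (by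
      rw [Nat.cast_pow, Real.log_pow, Nat.cast_ofNat, Nat.cast_sub hw, hM]
      exact hN) (by
      intro ω _
      show |(qs i₁ w H (slam F w ω.1)).eval (rt F w ω.1)| ≤ S₀
      rw [eval_qs, ← t_rt F hw, es_at]
      exact hAH ω.1 ω.2)
  rw [hM] at h1
  obtain ⟨E, hE⟩ : ∃ E : {ω // A ω} → Prop, E = fun ω => ∀ τ ∈ Set.Icc (0 : ℝ) 1,
      |(qs i₁ w H (slam F w ω.1)).eval τ| ≤ Real.exp (C₁ * 2 * (θ + 1)) * S₀ := ⟨_, rfl⟩
  have h2 : Pb (Fam.sub F A hA).p (fun ω => ¬ E ω) ≤ 1 / 2 := by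
    rw [hE]
    exact h1
  have h3 : Pe (Fam.sub F A hA).p E = 1 - Pb (Fam.sub F A hA).p (fun ω => ¬ E ω) :=
    Pe_compl hq E
  refine ⟨fun ω => ∃ h : A ω, E ⟨ω, h⟩, fun ω hω => hω.1, ?_, fun ω hω => ?_⟩
  · have h5 : Pe F.p (fun ω => ∃ h : A ω, E ⟨ω, h⟩) = Pe F.p A * Pe (Fam.sub F A hA).p E :=
      sub_Pe hA E
    rw [h5, h3]
    nlinarith
  · obtain ⟨h, hω⟩ := hω
    rw [hE] at hω
    exact hω

end Pool.PB.Trl
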