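import Pool.Agent.H40.SLP.UN2

/-!
# The step of the slope law

Section 5 of `K_SLOPE_h7.md`. `y z + t * om z` is the position of the line `z` relative to the line
`l`; the own sheet over `l (t)` has the coefficients `s t al` of order `j`. If the height of the
line `z` over the own sheet of `l (t)` has moved by the same amount as for the line `l`, for a
unisolvent family of lines `z`, then the coefficients are near polynomials of degree `K - j`.
-/

set_option autoImplicit false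

namespace Pool.SLP

open Finset Real Polynomial
open Pool.Agent.H49.Ent Pool.STK Pool.KAF

/-- The exponents of order `j`. -/
abbrev Jx (k K j : ℕ) : Type := {al : Ix k K // dg al = j}

/-- The exponent. -/
def jex {k K j : ℕ} (al : Jx k K j) : Fin k → ℕ := ex al.1

/-- The form of order `j` with coefficients `s`. -/
noncomputable def frm {k K j : ℕ} (s : Jx k K j → ℝ) (Y : Fin k → ℝ) : ℝ :=
  ∑ al, s al * mon (jex al) Y

/-- The polynomial `a + c 1 t + ... + c K t ^ K`. -/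
noncomputable def cpl (K : ℕ) (a : ℝ) (c : ℕ → ℝ) : ℝ[X] :=
  Polynomial.C a + ∑ i ∈ Icc 1 K, Polynomial.C (c i) * Polynomial.X ^ i

theorem cpl_eval (K : ℕ) (a : ℝ) (c : ℕ → ℝ) (t : ℝ) :
    (cpl K a c).eval t = a + ∑ i ∈ Icc 1 K, c i * t ^ i := by
  unfold cpl
  simp [Polynomial.eval_finsetSum]

theorem cpl_CB (K : ℕ) (a : ℝ) (c : ℕ → ℝ) (B : ℝ) (ha : |a| ≤ B) (hc : ∀ i, |c i| ≤ B) :
    CB K B (cpl K a c) := by
  have hB : 0 ≤ B := (abs_nonneg a).trans ha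
  refine ⟨?_, fun m => ?_⟩
  · unfold cpl
    refine (Polynomial.natDegree_add_le _ _).trans (max_le (by simp) ?_)
    refine Polynomial.natDegree_sum_le_of_forall_le _ _ fun i hi => ?_
    exact (Polynomial.natDegree_C_mul_X_pow_le _ _).trans (mem_Icc.1 hi).2
  · unfold cpl
    rw [Polynomial.coeff_add, Polynomial.finsetSum_coeff]
    simp only [Polynomial.coeff_C_mul, Polynomial.coeff_X_pow, mul_ite, mul_one, mul_zero]
    rw [Finset.sum_ite_eq, Polynomial.coeff_C]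
    by_cases h0 : m = 0
    · subst h0
      simp [ha]
    · rw [if_neg h0, zero_add]
      split_ifs
      · exact hc m
      · rw [abs_zero]; exact hB

theorem jex_inj (k K j : ℕ) : Function.Injective (jex : Jx k K j → Fin k → ℕ) := by
  intro a b h
  exact Subtype.ext (ex_inj k K h)

theorem mon_le_one {k : ℕ} (al : Fin k → ℕ) {Y : Fin k → ℝ} (hY : ∀ l, |Y l| ≤ 1) :
    |mon al Y| ≤ 1 := by
  unfold mon
  rw [Finset.abs_prod]
  refine Finset.prod_le_one (fun _ _ => abs_nonneg _) fun i _ => ?_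
  rw [abs_pow]
  exact pow_le_one₀ (abs_nonneg _) (hY i)

/-- Unisolvent lines and Taylor expansion. -/
theorem step_core (k K j n : ℕ) (B : ℝ) (hB : 0 ≤ B) : ∃ (kap : ℝ) (K₀ : ℕ), 0 < kap ∧
    ∀ Ky : ℕ, K₀ ≤ Ky → ∃ C δ : ℝ, 0 ≤ C ∧ 0 < δ ∧ δ ≤ 1 ∧
      ∀ (Ω : Type) [Fintype Ω] (q : Ω → ℝ) (y om : Ω → Fin k → ℝ) (P : Ω → ℝ[X]) (T : Set Ω),
        IsLaw q → (∀ z, 0 < q z → ∀ l, |y z l| ≤ 1) → (∀ z, 0 < q z → ∀ l, |om z l| ≤ 1) →
        (∀ z, 0 < q z → CB K B (P z)) →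
        (k - kap) * (Ky * Real.log 2) ≤ H q (fun z (l : Fin k) => ⌊(2 : ℝ) ^ Ky * y z l⌋) →
        Pr q Tᶜ ≤ 1 / 2 →
        ∃ (z : Jx k K j → Ω) (r : Jx k K j → ℕ → ℝ), (∀ i, z i ∈ T ∧ 0 < q (z i)) ∧
          (∀ i m, |r i m| ≤ C) ∧
          ∀ t : ℝ, |t| ≤ δ → ∀ (s : Jx k K j → ℝ) (ε : ℝ),
            (∀ i, |frm s (fun l => y (z i) l + t * om (z i) l) - (P (z i)).eval t| ≤ ε) →
            ∀ al, |s al - ∑ m ∈ range n, r al m * t ^ m| ≤ C * (|t| ^ n + ε) := by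
  classical
  obtain ⟨kap, K₀, hkap, hun⟩ := un2 k K
  obtain ⟨BM, hBM, hMB⟩ : ∃ BM : ℝ, 0 ≤ BM ∧ ∀ (al : Jx k K j) (y om : Fin k → ℝ),
      (∀ l, |y l| ≤ 1) → (∀ l, |om l| ≤ 1) → CB K BM (mpol (jex al) y om) := by
    choose B0 hB0 hB1 using fun al : Jx k K j => mpol_CB (jex al)
    refine ⟨∑ al, B0 al, Finset.sum_nonneg fun al _ => hB0 al, fun al y om hy hom => ?_⟩
    exact (hB1 al y om hy hom).mono al.1.2
      (Finset.single_le_sum (f := B0) (fun _ _ => hB0 _) (Finset.mem_univ al))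
  refine ⟨kap, K₀, hkap, fun Ky hKy => ?_⟩
  obtain ⟨C0, δ, hC0, hδ0, hδ1, htay⟩ :=
    tay (ι := Jx k K j) K BM B (2 ^ Ky) hBM hB (by positivity) n
  refine ⟨C0, δ, hC0, hδ0, hδ1, fun Ω _ q y om P T hq hy hom hP hH hT => ?_⟩
  obtain ⟨z, N, hz, hN, hNr, hNl⟩ := hun (Jx k K j) (fun al => jex al) Ky Ω q y T
    (jex_inj k K j) (fun al => al.1.2) hKy hq hy hH hT
  obtain ⟨r, hrb, hr⟩ := htay (fun i al => mpol (jex al) (y (z i)) (om (z i)))
    (fun i => P (z i)) N (fun i al => hMB al _ _ (hy _ (hz i).2) (hom _ (hz i).2))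
    (fun i => hP _ (hz i).2) hN
    (fun v i => by
      simp only [mpol_coeff_zero]
      exact hNr v i)
    (fun v i => by
      simp only [mpol_coeff_zero]
      exact hNl v i)
  refine ⟨z, r, hz, hrb, fun t ht s ε hs al => ?_⟩
  refine hr t ht s ε (fun i => ?_) al
  have h3 : ∑ al, (mpol (jex al) (y (z i)) (om (z i))).eval t * s al =
      frm s (fun l => y (z i) l + t * om (z i) l) := by
    unfold frm
    refine Finset.sum_congr rfl fun al _ => ?_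
    rw [mpol_eval, mul_comm]
  rw [h3]
  exact hs i

/-- The movement of the height of the line `z` over the own sheet of `l`. -/
noncomputable def hmv {k K j : ℕ} (s : ℝ → Jx k K j → ℝ) (y om : Fin k → ℝ) (c : ℕ → ℝ)
    (t : ℝ) : ℝ :=
  ∑ i ∈ Icc 1 K, c i * t ^ i - frm (s t) (fun l => y l + t * om l) + frm (s 0) y

/-- **The step.** `c z i` are the coefficients of the height of the line `z`, `cl i` those of the
line `l`; `G z` is the set of times for which the pair `(z, l)` is good. -/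
theorem step (k K j : ℕ) (B : ℝ) (hB : 0 ≤ B) : ∃ (kap : ℝ) (K₀ : ℕ), 0 < kap ∧
    ∀ Ky : ℕ, K₀ ≤ Ky → ∃ C δ : ℝ, 0 ≤ C ∧ 0 < δ ∧ δ ≤ 1 ∧
      ∀ (Ω : Type) [Fintype Ω] (q : Ω → ℝ) (y om : Ω → Fin k → ℝ) (c : Ω → ℕ → ℝ)
        (c₀ : ℕ → ℝ) (s : ℝ → Jx k K j → ℝ) (T : Set Ω) (G : Ω → Set ℝ) (η : ℝ),
        IsLaw q → (∀ z, 0 < q z → ∀ l, |y z l| ≤ 1) → (∀ z, 0 < q z → ∀ l, |om z l| ≤ 1) →
        (∀ z, 0 < q z → ∀ i, |c z i| ≤ B) → (∀ i, |c₀ i| ≤ B) → (∀ al, |s 0 al| ≤ B) →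
        (k - kap) * (Ky * Real.log 2) ≤ H q (fun z (l : Fin k) => ⌊(2 : ℝ) ^ Ky * y z l⌋) →
        Pr q Tᶜ ≤ 1 / 2 →
        (∀ z ∈ T, 0 < q z → ∀ t ∈ G z,
          |hmv s (y z) (om z) (c z) t - ∑ i ∈ Icc 1 K, c₀ i * t ^ i| ≤ η) →
        ∃ (z : Jx k K j → Ω) (r : Jx k K j → ℕ → ℝ), (∀ i, z i ∈ T ∧ 0 < q (z i)) ∧
          (∀ i m, |r i m| ≤ C) ∧
          ∀ t : ℝ, |t| ≤ δ → (∀ i, t ∈ G (z i)) →
            ∀ al, |s t al - ∑ m ∈ range (K + 1 - j), r al m * t ^ m| ≤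
              C * (|t| ^ (K + 1 - j) + η) := by
  classical
  set cd : ℝ := (Fintype.card (Jx k K j) : ℝ) with hcd
  have hcd0 : 0 ≤ cd := by rw [hcd]; positivity
  obtain ⟨kap, K₀, hkap, hst⟩ := step_core k K j (K + 1 - j) (2 * B + cd * B) (by positivity)
  refine ⟨kap, K₀, hkap, fun Ky hKy => ?_⟩
  obtain ⟨C, δ, hC, hδ0, hδ1, h⟩ := hst Ky hKy
  refine ⟨C, δ, hC, hδ0, hδ1, fun Ω _ q y om c c₀ s T G η hq hy hom hc hc₀ hs hH hT hG => ?_⟩
  have hfr : ∀ z, 0 < q z → |frm (s 0) (y z)| ≤ cd * B := by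
    intro z hz
    unfold frm
    refine (Finset.abs_sum_le_sum_abs _ _).trans ?_
    have h1 : ∀ al ∈ (Finset.univ : Finset (Jx k K j)), |s 0 al * mon (jex al) (y z)| ≤ B := by
      intro al _
      rw [abs_mul]
      calc _ ≤ B * 1 := mul_le_mul (hs al) (mon_le_one _ (hy z hz)) (abs_nonneg _) hB
        _ = B := mul_one B
    refine (Finset.sum_le_sum h1).trans ?_
    rw [Finset.sum_const, nsmul_eq_mul, Finset.card_univ]
  obtain ⟨z, r, hz, hr, hfin⟩ := h Ω q y om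
    (fun z => cpl K (frm (s 0) (y z)) (fun i => c z i - c₀ i)) T hq hy hom (fun z hz => by
      refine cpl_CB K _ _ _ ((hfr z hz).trans (by linarith)) fun i => ?_
      have h1 := hc z hz i
      have h2 := hc₀ i
      have h3 : 0 ≤ cd * B := by positivity
      rw [abs_le] at h1 h2 ⊢
      constructor <;> linarith [h1.1, h1.2, h2.1, h2.2]) hH hT
  refine ⟨z, r, hz, hr, fun t ht hGt al => ?_⟩
  refine hfin t ht (s t) η (fun i => ?_) al
  have h1 := hG (z i) (hz i).1 (hz i).2 t (hGt i)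
  rw [cpl_eval]
  have h2 : ∑ m ∈ Icc 1 K, (c (z i) m - c₀ m) * t ^ m =
      ∑ m ∈ Icc 1 K, c (z i) m * t ^ m - ∑ m ∈ Icc 1 K, c₀ m * t ^ m := by
    rw [← Finset.sum_sub_distrib]
    exact Finset.sum_congr rfl fun m _ => by ring
  rw [h2, abs_sub_comm]
  have h3 : frm (s 0) (y (z i)) + (∑ m ∈ Icc 1 K, c (z i) m * t ^ m -
      ∑ m ∈ Icc 1 K, c₀ m * t ^ m) - frm (s t) (fun l => y (z i) l + t * om (z i) l) =
      hmv s (y (z i)) (om (z i)) (c (z i)) t - ∑ i ∈ Icc 1 K, c₀ i * t ^ i := by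
    unfold hmv
    ring
  rw [h3]
  exact h1

/-- The exceptional times: they form a small portion of a finite set of times `𝒯` when every
line of `T` has few exceptional times. -/
theorem step_times {Ω ι : Type} [Fintype ι] (T : Set Ω) (G : Ω → Set ℝ) (𝒯 : Finset ℝ) (e : ℝ)
    (z : ι → Ω) (hz : ∀ i, z i ∈ T)
    (h : ∀ z ∈ T, (open Classical in ((𝒯.filter fun t => t ∉ G z).card : ℝ)) ≤ e) :
    (open Classical in ((𝒯.filter fun t => ¬ ∀ i, t ∈ G (z i)).card : ℝ)) ≤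
      Fintype.card ι * e := by
  classical
  have h1 : (𝒯.filter fun t => ¬ ∀ i, t ∈ G (z i)) ⊆
      Finset.univ.biUnion fun i => 𝒯.filter fun t => t ∉ G (z i) := by
    intro t ht
    rw [Finset.mem_filter] at ht
    obtain ⟨h1, h2⟩ := ht
    push Not at h2
    obtain ⟨i, hi⟩ := h2
    rw [Finset.mem_biUnion]
    exact ⟨i, Finset.mem_univ i, Finset.mem_filter.2 ⟨h1, hi⟩⟩
  have h2 := (Finset.card_le_card h1).trans Finset.card_biUnion_le
  calc (((𝒯.filter fun t => ¬ ∀ i, t ∈ G (z i)).card : ℕ) : ℝ) ≤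
      ((∑ i, (𝒯.filter fun t => t ∉ G (z i)).card : ℕ) : ℝ) := by exact_mod_cast h2
    _ = ∑ i, ((𝒯.filter fun t => t ∉ G (z i)).card : ℝ) := by push_cast; rfl
    _ ≤ ∑ _i : ι, e := Finset.sum_le_sum fun i _ => h (z i) (hz i)
    _ = Fintype.card ι * e := by rw [Finset.sum_const, nsmul_eq_mul, Finset.card_univ]

end Pool.SLP
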