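import Pool.Agent.H54.KVA.Defs2

/-!
# The telescope

Row TEL, (T2) of `K_SLOPE_h7.md`: for contexts `b w` which need not be nested, the increments
`X w`, functions of the pair `(b w, b (w + L))`, give little information about `Z`, in the sum over
`w`, when `b w` is almost a function of `b (w + L)`.
-/

set_option autoImplicit false

namespace Pool.SLP

open Finset Real
open Pool.Agent.H49.Ent Pool.STK Pool.KVA

/-- Mutual information is nonnegative. -/
theorem mi_nonneg {Ω S T β : Type} [Fintype Ω] {p : Ω → ℝ} (hp : ∀ ω, 0 ≤ p ω) (A : Ω → S)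
    (B : Ω → T) (b : Ω → β) : 0 ≤ MI p A B b := by
  have h := submod hp (X := fun ω => (A ω, b ω)) (Y := fun ω => (B ω, b ω)) (Z := b)
    (W := fun ω => ((A ω, B ω), b ω)) (fun _ _ _ _ h => congrArg Prod.snd h)
    (fun _ _ _ _ h => congrArg Prod.snd h) (fun _ _ _ _ h => by
      simp only [Prod.mk.injEq] at h ⊢
      exact ⟨⟨h.1.1, h.2.1⟩, h.1.2⟩)
  unfold MI CH
  linarith

/-- One step. -/
theorem tel_step {Ω S T U V : Type} [Fintype Ω] {p : Ω → ℝ} (hp : ∀ ω, 0 ≤ p ω) (Z : Ω → U)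
    (b : Ω → S) (b' : Ω → T) (X : Ω → V) (hX : Det p (fun ω => (b ω, b' ω)) X) :
    MI p Z X b ≤ CH p Z b - CH p Z b' + CH p b b' := by
  have h := submod hp (X := fun ω => ((Z ω, X ω), b ω)) (Y := fun ω => (b ω, b' ω))
    (Z := fun ω => (X ω, b ω)) (W := fun ω => (Z ω, b' ω)) (fun _ _ _ _ h => by
      simp only [Prod.mk.injEq] at h ⊢
      exact ⟨h.1.2, h.2⟩) (fun ω ω' h1 h2 h => by
      simp only [Prod.mk.injEq] at h ⊢
      exact ⟨hX ω ω' h1 h2 (Prod.ext h.1 h.2), h.1⟩) (fun _ _ _ _ h => by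
      simp only [Prod.mk.injEq] at h ⊢
      exact ⟨h.1.1.1, h.2.2⟩)
  unfold MI CH
  linarith

theorem ch_nonneg {Ω S T : Type} [Fintype Ω] {p : Ω → ℝ} (hp : ∀ ω, 0 ≤ p ω) (Z : Ω → S)
    (b : Ω → T) : 0 ≤ CH p Z b := by
  have h : H p b ≤ H p (fun ω => (Z ω, b ω)) := H_mono hp fun _ _ _ _ h => congrArg Prod.snd h
  unfold CH
  linarith

/-- **Row TEL**, with step `L`. -/
theorem tel {Ω U : Type} [Fintype Ω] {S V : ℕ → Type} {p : Ω → ℝ} (hp : ∀ ω, 0 ≤ p ω)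
    (Z : Ω → U) (b : ∀ w, Ω → S w) (X : ∀ w, Ω → V w) (L n : ℕ)
    (hX : ∀ w < n, Det p (fun ω => (b w ω, b (w + L) ω)) (X w)) :
    ∑ w ∈ range n, MI p Z (X w) (b w) ≤
      ∑ w ∈ range L, CH p Z (b w) + ∑ w ∈ range n, CH p (b w) (b (w + L)) := by
  have h1 : ∑ w ∈ range n, MI p Z (X w) (b w) ≤
      ∑ w ∈ range n, (CH p Z (b w) - CH p Z (b (w + L)) + CH p (b w) (b (w + L))) :=
    Finset.sum_le_sum fun w hw => tel_step hp Z (b w) (b (w + L)) (X w) (hX w (mem_range.1 hw))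
  rw [Finset.sum_add_distrib, Finset.sum_sub_distrib] at h1
  have h2 : ∑ w ∈ range (n + L), CH p Z (b w) =
      ∑ w ∈ range n, CH p Z (b w) + ∑ w ∈ range L, CH p Z (b (n + w)) :=
    Finset.sum_range_add _ _ _
  have h3 : ∑ w ∈ range (L + n), CH p Z (b w) =
      ∑ w ∈ range L, CH p Z (b w) + ∑ w ∈ range n, CH p Z (b (L + w)) :=
    Finset.sum_range_add _ _ _
  have h4 : ∑ w ∈ range n, CH p Z (b (L + w)) = ∑ w ∈ range n, CH p Z (b (w + L)) :=
    Finset.sum_congr rfl fun w _ => by rw [add_comm]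
  have h5 : 0 ≤ ∑ w ∈ range L, CH p Z (b (n + w)) :=
    Finset.sum_nonneg fun w _ => ch_nonneg hp Z _
  rw [add_comm n L] at h2
  linarith

/-- The number of exceptional steps. -/
theorem tel_card {Ω U : Type} [Fintype Ω] {S V : ℕ → Type} {p : Ω → ℝ} (hp : ∀ ω, 0 ≤ p ω)
    (Z : Ω → U) (b : ∀ w, Ω → S w) (X : ∀ w, Ω → V w) (L n : ℕ) (t : ℝ)
    (hX : ∀ w < n, Det p (fun ω => (b w ω, b (w + L) ω)) (X w)) :
    t * (((range n).filter fun w => t < MI p Z (X w) (b w)).card : ℝ) ≤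
      ∑ w ∈ range L, CH p Z (b w) + ∑ w ∈ range n, CH p (b w) (b (w + L)) := by
  refine le_trans ?_ (tel hp Z b X L n hX)
  rw [mul_comm, ← nsmul_eq_mul]
  refine le_trans (Finset.card_nsmul_le_sum _ (fun w => MI p Z (X w) (b w)) t fun w hw =>
    (Finset.mem_filter.1 hw).2.le) ?_
  exact Finset.sum_le_sum_of_subset_of_nonneg (Finset.filter_subset _ _)
    fun w _ _ => mi_nonneg hp _ _ _

end Pool.SLP
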