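import Pool.Agent.H7.SLP.SLK
import Pool.Agent.H77.KAL.RMN
import Pool.Agent.H33.KAL.RMG
import Pool.Agent.H56.KAF.Defs

/-!
# Unisolvent typical points

Row UN2, 5.2 of `K_SLOPE_h7.md`: points whose digits have almost full entropy contain, in every
event of probability at least `1 / 2`, a unisolvent family for the monomials with given exponents;
the inverse of the matrix of the values is bounded by `N`.
-/

set_option autoImplicit false

namespace Pool.SLP

open Finset Real
open Pool.Agent.H49.Ent Pool.STK Pool.KAF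

/-- Fekete points: if functions bounded by one on `S` have coefficients bounded by `A`, then there
are points of `S` such that the inverse of the matrix of the values is bounded by `A`. -/
theorem fek {σ ι : Type} [Fintype ι] [DecidableEq ι] (f : ι → σ → ℝ) (S : Finset σ) (A : ℝ)
    (h : ∀ c : ι → ℝ, (∀ x ∈ S, |∑ i, c i * f i x| ≤ 1) → ∀ i, |c i| ≤ A) :
    ∃ (z : ι → σ) (N : ι → ι → ℝ), (∀ i, z i ∈ S) ∧ (∀ i j, |N i j| ≤ A) ∧
      (∀ v : ι → ℝ, ∀ i, ∑ j, f j (z i) * ∑ l, N j l * v l = v i) ∧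
      (∀ v : ι → ℝ, ∀ i, ∑ j, N i j * ∑ l, f l (z j) * v l = v i) := by
  obtain ⟨z0, hz0⟩ := uni_pts (σ := {x // x ∈ S}) (fun i x => f i x.1) (by
    intro c hc
    funext i
    by_contra hne
    have hne' : c i ≠ 0 := hne
    have h1 := h (fun l => ((A + 1) / c i) * c l) (by
      intro x hx
      have h2 := hc ⟨x, hx⟩
      have h3 : ∑ l, (A + 1) / c i * c l * f l x = (A + 1) / c i * ∑ l, c l * f l x := by
        rw [Finset.mul_sum]
        exact Finset.sum_congr rfl fun l _ => by ring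
      rw [h3, h2, mul_zero, abs_zero]
      exact zero_le_one) i
    rw [div_mul_cancel₀ _ hne'] at h1
    have h4 : A + 1 ≤ |A + 1| := le_abs_self _
    linarith)
  set D : (ι → {x // x ∈ S}) → ℝ := fun z => |(Matrix.of fun j i => f i (z j).1).det| with hD
  have : Nonempty (ι → {x // x ∈ S}) := ⟨z0⟩
  obtain ⟨z, hz⟩ := Finite.exists_max D
  set G : Matrix ι ι ℝ := Matrix.of fun j i => f i (z j).1 with hG
  have hne : G.det ≠ 0 := by
    intro h0
    have h1 := hz z0
    have h2 : 0 < D z0 := abs_pos.2 hz0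
    have h3 : D z = 0 := by
      change |G.det| = 0
      rw [h0, abs_zero]
    linarith
  have hu : IsUnit G.det := isUnit_iff_ne_zero.2 hne
  have hNe : ∀ i m, G⁻¹ i m = G.adjugate i m / G.det := by
    intro i m
    rw [Matrix.inv_def, Ring.inverse_eq_inv', Matrix.smul_apply, smul_eq_mul, mul_comm,
      ← div_eq_mul_inv]
  refine ⟨fun i => (z i).1, fun i j => G⁻¹ i j, fun i => (z i).2, fun i m => ?_, fun v i => ?_,
    fun v i => ?_⟩
  · refine h (fun i => G⁻¹ i m) (fun x hx => ?_) i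
    have e1 : ∑ i, G⁻¹ i m * f i x = (G.updateRow m (fun i => f i x)).det / G.det := by
      rw [← Matrix.cramer_transpose_apply, Matrix.cramer_eq_adjugate_mulVec,
        ← Matrix.adjugate_transpose, Matrix.mulVec, dotProduct, Finset.sum_div]
      refine Finset.sum_congr rfl fun i _ => ?_
      rw [hNe, Matrix.transpose_apply]
      ring
    have e2 : G.updateRow m (fun i => f i x) =
        Matrix.of fun j i => f i ((Function.update z m ⟨x, hx⟩) j).1 := by
      ext j i
      by_cases hjm : j = m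
      · subst hjm
        rw [Matrix.updateRow_self, Matrix.of_apply, Function.update_self]
      · rw [Matrix.updateRow_ne hjm, Matrix.of_apply, Function.update_of_ne hjm, hG,
          Matrix.of_apply]
    rw [e1, abs_div, div_le_one (abs_pos.2 hne), e2]
    exact hz (Function.update z m ⟨x, hx⟩)
  · have h3 : G.mulVec (G⁻¹.mulVec v) = v := by
      rw [Matrix.mulVec_mulVec, Matrix.mul_nonsing_inv _ hu, Matrix.one_mulVec]
    exact congrFun h3 i
  · have h3 : G⁻¹.mulVec (G.mulVec v) = v := by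
      rw [Matrix.mulVec_mulVec, Matrix.nonsing_inv_mul _ hu, Matrix.one_mulVec]
    exact congrFun h3 i

/-- Polynomials vanishing on the cube are zero. -/
theorem mon_indep' {k : ℕ} {ι : Type} [Fintype ι] (e : ι → Fin k → ℕ)
    (he : Function.Injective e) (c : ι → ℝ)
    (h : ∀ x : {x : Fin k → ℝ // ∀ l, |x l| ≤ 1}, ∑ i, c i * mon (e i) x.1 = 0) : c = 0 := by
  classical
  set p : MvPolynomial (Fin k) ℝ := ∑ i,
    MvPolynomial.monomial (Finsupp.equivFunOnFinite.symm (e i)) (c i) with hp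
  have hev : ∀ x : Fin k → ℝ, MvPolynomial.eval x p = ∑ i, c i * mon (e i) x := by
    intro x
    rw [hp, map_sum]
    refine Finset.sum_congr rfl fun al _ => ?_
    rw [MvPolynomial.eval_monomial]
    congr 1
    rw [Finsupp.prod_fintype _ _ (fun i => pow_zero _)]
    rfl
  have h0 : p = 0 := by
    refine MvPolynomial.funext_set (fun _ : Fin k => Set.Icc (-1 : ℝ) 1)
      (fun _ => Set.Icc_infinite (by norm_num)) fun x hx => ?_
    rw [hev, map_zero]
    refine h ⟨x, fun l => ?_⟩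
    have := hx l (Set.mem_univ l)
    exact abs_le.2 ⟨this.1, this.2⟩
  funext al
  have h1 : MvPolynomial.coeff (Finsupp.equivFunOnFinite.symm (e al)) p = c al := by
    rw [hp, MvPolynomial.coeff_sum]
    rw [Finset.sum_eq_single al]
    · rw [MvPolynomial.coeff_monomial, if_pos rfl]
    · intro be _ hne
      rw [MvPolynomial.coeff_monomial, if_neg]
      intro h2
      apply hne
      exact he (Finsupp.equivFunOnFinite.symm.injective h2)
    · intro h2
      exact absurd (Finset.mem_univ al) h2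
  rw [h0] at h1
  simpa using h1.symm

/-- The coefficients are bounded by the supremum on the cube. -/
theorem coef_bd {k : ℕ} {ι : Type} [Fintype ι] (e : ι → Fin k → ℕ)
    (he : Function.Injective e) : ∃ C : ℝ, 0 ≤ C ∧ ∀ (c : ι → ℝ) (M : ℝ), 0 ≤ M →
      (∀ Y : Fin k → ℝ, (∀ l, |Y l| ≤ 1) → |∑ i, c i * mon (e i) Y| ≤ M) →
      ∀ i, |c i| ≤ C * M := by
  classical
  obtain ⟨x, hx⟩ := uni_pts (σ := {x : Fin k → ℝ // ∀ l, |x l| ≤ 1})
    (fun i x => mon (e i) x.1) (mon_indep' e he)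
  set G : Matrix ι ι ℝ := Matrix.of fun j i => mon (e i) (x j).1 with hG
  have hu : IsUnit G.det := isUnit_iff_ne_zero.2 hx
  refine ⟨∑ i, ∑ j, |G⁻¹ i j|, Finset.sum_nonneg fun _ _ => Finset.sum_nonneg fun _ _ =>
    abs_nonneg _, fun c M hM hc i => ?_⟩
  have h1 : c i = ∑ j, G⁻¹ i j * ∑ l, G j l * c l := by
    have h3 : G⁻¹.mulVec (G.mulVec c) = c := by
      rw [Matrix.mulVec_mulVec, Matrix.nonsing_inv_mul _ hu, Matrix.one_mulVec]
    exact (congrFun h3 i).symm
  rw [h1]
  have h2 : |∑ j, G⁻¹ i j * ∑ l, G j l * c l| ≤ ∑ j, |G⁻¹ i j| * M := by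
    refine (Finset.abs_sum_le_sum_abs _ _).trans (Finset.sum_le_sum fun j _ => ?_)
    rw [abs_mul]
    refine mul_le_mul_of_nonneg_left ?_ (abs_nonneg _)
    have h4 := hc (x j).1 (x j).2
    have h5 : ∑ l, G j l * c l = ∑ l, c l * mon (e l) (x j).1 :=
      Finset.sum_congr rfl fun l _ => mul_comm _ _
    rw [h5]
    exact h4
  refine h2.trans ?_
  rw [← Finset.sum_mul]
  refine mul_le_mul_of_nonneg_right ?_ hM
  exact Finset.single_le_sum (f := fun i => ∑ j, |G⁻¹ i j|)
    (fun _ _ => Finset.sum_nonneg fun _ _ => abs_nonneg _) (Finset.mem_univ i)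

/-- Monomials are Lipschitz functions on the cube. -/
theorem mon_lip {k : ℕ} (al : Fin k → ℕ) : ∃ C : ℝ, 0 ≤ C ∧ ∀ (Y Y' : Fin k → ℝ) (d : ℝ),
    (∀ l, |Y l| ≤ 1) → (∀ l, |Y' l| ≤ 1) → (∀ l, |Y l - Y' l| ≤ d) → 0 ≤ d →
      |mon al Y - mon al Y'| ≤ C * d := by
  have h : ∀ s : Finset (Fin k), ∃ C : ℝ, 0 ≤ C ∧ ∀ (Y Y' : Fin k → ℝ) (d : ℝ),
      (∀ l, |Y l| ≤ 1) → (∀ l, |Y' l| ≤ 1) → (∀ l, |Y l - Y' l| ≤ d) → 0 ≤ d →
      |∏ l ∈ s, Y l ^ al l - ∏ l ∈ s, Y' l ^ al l| ≤ C * d := by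
    intro s
    induction s using Finset.induction_on with
    | empty => exact ⟨0, le_rfl, fun Y Y' d _ _ _ _ => by simp⟩
    | insert l s hl ih =>
      obtain ⟨C, hC, h⟩ := ih
      refine ⟨al l + C, by positivity, fun Y Y' d hY hY' hd hd0 => ?_⟩
      rw [Finset.prod_insert hl, Finset.prod_insert hl]
      have h1 := h Y Y' d hY hY' hd hd0
      have h2 : |Y l ^ al l - Y' l ^ al l| ≤ al l * d := by
        refine (abs_pow_sub_pow_le _ _ _).trans ?_
        have h3 : max |Y l| |Y' l| ^ (al l - 1) ≤ 1 :=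
          pow_le_one₀ (le_max_of_le_left (abs_nonneg _)) (max_le (hY l) (hY' l))
        have h4 : 0 ≤ max |Y l| |Y' l| ^ (al l - 1) :=
          pow_nonneg (le_max_of_le_left (abs_nonneg _)) _
        calc |Y l - Y' l| * (al l : ℝ) * max |Y l| |Y' l| ^ (al l - 1) ≤
            d * (al l : ℝ) * 1 := by
              refine mul_le_mul ?_ h3 h4 (by positivity)
              exact mul_le_mul_of_nonneg_right (hd l) (Nat.cast_nonneg _)
          _ = al l * d := by ring
      have h3 : |∏ l ∈ s, Y l ^ al l| ≤ 1 := by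
        rw [Finset.abs_prod]
        refine Finset.prod_le_one (fun _ _ => abs_nonneg _) fun i _ => ?_
        rw [abs_pow]
        exact pow_le_one₀ (abs_nonneg _) (hY i)
      have h4 : |Y' l ^ al l| ≤ 1 := by
        rw [abs_pow]
        exact pow_le_one₀ (abs_nonneg _) (hY' l)
      have h5 : Y l ^ al l * ∏ l ∈ s, Y l ^ al l - Y' l ^ al l * ∏ l ∈ s, Y' l ^ al l =
          (Y l ^ al l - Y' l ^ al l) * ∏ l ∈ s, Y l ^ al l +
            Y' l ^ al l * (∏ l ∈ s, Y l ^ al l - ∏ l ∈ s, Y' l ^ al l) := by ring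
      rw [h5]
      refine (abs_add_le _ _).trans ?_
      rw [abs_mul, abs_mul]
      have h6 : |Y l ^ al l - Y' l ^ al l| * |∏ l ∈ s, Y l ^ al l| ≤ al l * d * 1 :=
        mul_le_mul h2 h3 (abs_nonneg _) (by positivity)
      have h7 : |Y' l ^ al l| * |∏ l ∈ s, Y l ^ al l - ∏ l ∈ s, Y' l ^ al l| ≤ 1 * (C * d) :=
        mul_le_mul h4 h1 (abs_nonneg _) zero_le_one
      linarith
  obtain ⟨C, hC, h'⟩ := h Finset.univ
  exact ⟨C, hC, h'⟩

/-- The polynomial in the grid coordinates. -/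
noncomputable def gp {k : ℕ} {ι : Type} [Fintype ι] (e : ι → Fin k → ℕ) (N : ℕ) (c : ι → ℝ) :
    MvPolynomial (Fin k) ℝ :=
  ∑ i, MvPolynomial.C (c i) *
    ∏ l, (MvPolynomial.C (1 / (N : ℝ)) * MvPolynomial.X l - MvPolynomial.C 1) ^ e i l

theorem eval_gp {k : ℕ} {ι : Type} [Fintype ι] (e : ι → Fin k → ℕ) (N : ℕ) (c : ι → ℝ)
    (u : Fin k → ℝ) : MvPolynomial.eval u (gp e N c) =
      ∑ i, c i * mon (e i) (fun l => u l / N - 1) := by
  unfold gp mon
  rw [map_sum]
  refine Finset.sum_congr rfl fun i _ => ?_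
  rw [map_mul, MvPolynomial.eval_C, map_prod]
  congr 1
  refine Finset.prod_congr rfl fun l _ => ?_
  rw [map_pow, map_sub, map_mul, MvPolynomial.eval_C, MvPolynomial.eval_X, MvPolynomial.eval_C]
  congr 1
  ring

theorem degreeOf_gp {k : ℕ} {ι : Type} [Fintype ι] (e : ι → Fin k → ℕ) (N : ℕ) (c : ι → ℝ)
    (j : ℕ) (hj : ∀ i l, e i l ≤ j) (m : Fin k) : (gp e N c).degreeOf m ≤ j := by
  classical
  unfold gp
  refine (MvPolynomial.degreeOf_sum_le m _ _).trans (Finset.sup_le fun i _ => ?_)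
  refine (MvPolynomial.degreeOf_C_mul_le _ _ _).trans ?_
  refine (MvPolynomial.degreeOf_prod_le _ _ _).trans ?_
  have h1 : ∀ l ∈ (Finset.univ : Finset (Fin k)),
      ((MvPolynomial.C (1 / (N : ℝ)) * MvPolynomial.X l - MvPolynomial.C 1 :
        MvPolynomial (Fin k) ℝ) ^ e i l).degreeOf m ≤ if l = m then e i m else 0 := by
    intro l _
    refine (MvPolynomial.degreeOf_pow_le _ _ _).trans ?_
    have h2 : (MvPolynomial.C (1 / (N : ℝ)) * MvPolynomial.X l - MvPolynomial.C 1 :
        MvPolynomial (Fin k) ℝ).degreeOf m ≤ if l = m then 1 else 0 := by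
      refine (MvPolynomial.degreeOf_sub_le _ _ _).trans (max_le ?_ ?_)
      · refine (MvPolynomial.degreeOf_C_mul_le _ _ _).trans ?_
        rw [MvPolynomial.degreeOf_X]
        split_ifs with h3 h4 h4
        · exact le_rfl
        · exact absurd h3.symm h4
        · exact Nat.zero_le _
        · exact le_rfl
      · rw [MvPolynomial.degreeOf_C]
        exact Nat.zero_le _
    calc e i l * _ ≤ e i l * (if l = m then 1 else 0) := Nat.mul_le_mul_left _ h2
      _ ≤ if l = m then e i m else 0 := by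
        split_ifs with h3
        · rw [h3, mul_one]
        · rw [mul_zero]
  refine (Finset.sum_le_sum h1).trans ?_
  rw [Finset.sum_ite_eq' Finset.univ m, if_pos (Finset.mem_univ m)]
  exact hj i m

/-- The cell of side `1 / N` of a point. -/
noncomputable def cl {k : ℕ} (N : ℕ) (y : Fin k → ℝ) : Fin k → ℤ := fun l => ⌊(N : ℝ) * y l⌋

/-- If a set of points of the cube meets many cells, then a polynomial which is at most one on the
set has coefficients at most `N`. -/
theorem un2_coef {k : ℕ} {ι : Type} [Fintype ι] (e : ι → Fin k → ℕ)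
    (he : Function.Injective e) : ∃ C : ℕ, 1 ≤ C ∧ ∀ (N : ℕ) (ρ : ℝ) (S : Finset (Fin k → ℝ)),
      0 < ρ → ρ ≤ 1 → (C : ℝ) ≤ ρ ^ C * N → (∀ y ∈ S, ∀ l, |y l| ≤ 1) →
      (open Classical in ρ * (N : ℝ) ^ k ≤ ((S.image (cl N)).card : ℝ)) →
      ∀ c : ι → ℝ, (∀ y ∈ S, |∑ i, c i * mon (e i) y| ≤ 1) → ∀ i, |c i| ≤ N := by
  classical
  obtain ⟨C1, hC1, hcoef⟩ := coef_bd e he
  choose Lp hLp hlip using fun i => mon_lip (e i)
  set j : ℕ := ∑ i, ∑ l, e i l with hj
  have hje : ∀ i l, e i l ≤ j := by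
    intro i l
    have h1 : e i l ≤ ∑ l, e i l :=
      Finset.single_le_sum (f := fun l => e i l) (fun _ _ => Nat.zero_le _) (Finset.mem_univ l)
    have h2 : ∑ l, e i l ≤ j :=
      Finset.single_le_sum (f := fun i => ∑ l, e i l) (fun _ _ => Nat.zero_le _)
        (Finset.mem_univ i)
    exact h1.trans h2
  obtain ⟨C0, hC0, hrmn⟩ := Pool.KAL.rmn_thm Pool.KAL.rmg_thm k j
  set Ls : ℝ := ∑ i, Lp i with hLs
  have hLs0 : 0 ≤ Ls := Finset.sum_nonneg fun i _ => hLp i
  set W : ℝ := C1 * (C0 * ((4 : ℝ) ^ k) ^ C0 * (1 + Ls)) with hW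
  have hW0 : 0 ≤ W := by positivity
  refine ⟨C0 + C0 * (4 ^ k) ^ C0 + ⌈W⌉₊ + 1, by omega, ?_⟩
  set Cb : ℕ := C0 + C0 * (4 ^ k) ^ C0 + ⌈W⌉₊ + 1 with hCb
  intro N ρ S hρ hρ1 hN hS hcard c hc i
  have hρC : ρ ^ Cb ≤ ρ ^ C0 := pow_le_pow_of_le_one hρ.le hρ1 (by rw [hCb]; omega)
  have hN0 : (0 : ℝ) ≤ N := Nat.cast_nonneg N
  have hN1 : (Cb : ℝ) ≤ ρ ^ C0 * N := hN.trans (mul_le_mul_of_nonneg_right hρC hN0)
  have hCb0 : (0 : ℝ) < Cb := by
    have : 0 < Cb := by rw [hCb]; omega
    exact_mod_cast this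
  have hNpos : 0 < N := by
    rcases Nat.eq_zero_or_pos N with h | h
    · rw [h, Nat.cast_zero, mul_zero] at hN1
      linarith
    · exact h
  have hNpos' : (0 : ℝ) < N := by exact_mod_cast hNpos
  by_contra hcon
  push Not at hcon
  obtain ⟨i0, -, hi0⟩ := Finset.exists_max_image Finset.univ (fun i => |c i|)
    ⟨i, Finset.mem_univ i⟩
  set m : ℝ := |c i0| with hm
  have hmN : (N : ℝ) < m := hcon.trans_le (hi0 i (Finset.mem_univ i))
  have hm0 : 0 < m := hNpos'.trans hmN
  set c' : ι → ℝ := fun i => c i / m with hc'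
  have hc1 : ∀ i, |c' i| ≤ 1 := by
    intro i
    rw [hc']
    simp only
    rw [abs_div, abs_of_pos hm0, div_le_one hm0]
    exact hi0 i (Finset.mem_univ i)
  have hc2 : |c' i0| = 1 := by
    rw [hc']
    simp only
    rw [abs_div, abs_of_pos hm0, ← hm, div_self hm0.ne']
  have hQ : ∀ Y : Fin k → ℝ, ∑ i, c' i * mon (e i) Y = (∑ i, c i * mon (e i) Y) / m := by
    intro Y
    rw [Finset.sum_div]
    refine Finset.sum_congr rfl fun i _ => ?_
    rw [hc']
    ring
  have hQS : ∀ y ∈ S, |∑ i, c' i * mon (e i) y| ≤ 1 / N := by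
    intro y hy
    rw [hQ, abs_div, abs_of_pos hm0, div_le_div_iff₀ hm0 hNpos']
    have := hc y hy
    nlinarith
  have hQL : ∀ (Y Y' : Fin k → ℝ) (d : ℝ), (∀ l, |Y l| ≤ 1) → (∀ l, |Y' l| ≤ 1) →
      (∀ l, |Y l - Y' l| ≤ d) → 0 ≤ d →
      |∑ i, c' i * mon (e i) Y - ∑ i, c' i * mon (e i) Y'| ≤ Ls * d := by
    intro Y Y' d hY hY' hd hd0
    rw [← Finset.sum_sub_distrib, hLs, Finset.sum_mul]
    refine (Finset.abs_sum_le_sum_abs _ _).trans (Finset.sum_le_sum fun i _ => ?_)
    rw [← mul_sub, abs_mul]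
    calc |c' i| * |mon (e i) Y - mon (e i) Y'| ≤ 1 * (Lp i * d) :=
          mul_le_mul (hc1 i) (hlip i Y Y' d hY hY' hd hd0) (abs_nonneg _) zero_le_one
      _ = Lp i * d := one_mul _
  -- the grid
  set N' : ℕ := 2 * N + 2 with hN'
  set M : ℝ := (1 + Ls) / N with hM
  have hM0 : 0 ≤ M := by positivity
  set ρ' : ℝ := ρ / 4 ^ k with hρ'
  have hρ'0 : 0 < ρ' := by positivity
  have hρ'1 : ρ' ≤ 1 := by
    rw [hρ', div_le_one (by positivity)]
    exact hρ1.trans (one_le_pow₀ (by norm_num))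
  have hfl : ∀ y ∈ S, ∀ l, 0 ≤ cl N y l + N ∧ cl N y l + N < N' := by
    intro y hy l
    have h1 := abs_le.1 (hS y hy l)
    unfold cl
    constructor
    · have h2 : (-(N : ℤ)) ≤ ⌊(N : ℝ) * y l⌋ := by
        rw [Int.le_floor]
        push_cast
        nlinarith [h1.1]
      linarith
    · have h2 : ⌊(N : ℝ) * y l⌋ ≤ (N : ℤ) := by
        have h3 : ⌊(N : ℝ) * y l⌋ ≤ ⌊((N : ℤ) : ℝ)⌋ := by
          refine Int.floor_le_floor ?_
          push_cast
          nlinarith [h1.2]
        rwa [Int.floor_intCast] at h3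
      rw [hN']
      push_cast
      linarith
  set good := Finset.univ.filter fun x : Fin k → Fin N' =>
      |MvPolynomial.eval (fun i => ((x i : ℕ) : ℝ)) (gp e N c')| ≤ M with hgood
  have hinj : (S.image (cl N)).card ≤ good.card := by
    refine Finset.card_le_card_of_injOn
      (fun (q : Fin k → ℤ) l => (⟨(q l + N).toNat % N', Nat.mod_lt _ (by omega)⟩ : Fin N')) ?_ ?_
    · intro q hq
      obtain ⟨y, hy, rfl⟩ := Finset.mem_image.1 hq
      rw [hgood, Finset.coe_filter]
      refine ⟨Finset.mem_univ _, ?_⟩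
      rw [eval_gp]
      have e1 : ∀ l, (((⟨(cl N y l + N).toNat % N', Nat.mod_lt _ (by omega)⟩ : Fin N') : ℕ) : ℝ) =
          (cl N y l : ℝ) + N := by
        intro l
        obtain ⟨h1, h2⟩ := hfl y hy l
        change (((cl N y l + N).toNat % N' : ℕ) : ℝ) = _
        rw [Nat.mod_eq_of_lt (by omega)]
        have h3 : (((cl N y l + N).toNat : ℕ) : ℤ) = cl N y l + N := Int.toNat_of_nonneg h1
        have h4 : (((cl N y l + N).toNat : ℕ) : ℝ) = ((cl N y l + N : ℤ) : ℝ) := by
          exact_mod_cast h3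
        rw [h4]
        push_cast
        ring
      set Y' : Fin k → ℝ := fun l => ((cl N y l : ℝ) + N) / N - 1 with hY'
      have e2 : (fun l => (((⟨(cl N y l + N).toNat % N', Nat.mod_lt _ (by omega)⟩ :
          Fin N') : ℕ) : ℝ) / N - 1) = Y' := by
        funext l
        rw [e1 l]
      have e3 : ∀ l, Y' l = (cl N y l : ℝ) / N := by
        intro l
        rw [hY']
        field_simp
        ring
      have hYd : ∀ l, |Y' l - y l| ≤ 1 / N := by
        intro l
        rw [e3]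
        have f1 : ((cl N y l : ℤ) : ℝ) ≤ N * y l := Int.floor_le _
        have f2 : (N : ℝ) * y l < (cl N y l : ℝ) + 1 := Int.lt_floor_add_one _
        have h3 : (cl N y l : ℝ) / N - y l = ((cl N y l : ℝ) - N * y l) / N := by field_simp
        rw [h3, abs_div, abs_of_pos hNpos', div_le_div_iff_of_pos_right hNpos', abs_le]
        constructor <;> linarith
      have hY1 : ∀ l, |Y' l| ≤ 1 := by
        intro l
        rw [e3, abs_div, abs_of_pos hNpos', div_le_one hNpos', abs_le]
        have h1 := abs_le.1 (hS y hy l)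
        have f1 : ((cl N y l : ℤ) : ℝ) ≤ N * y l := Int.floor_le _
        obtain ⟨h2, -⟩ := hfl y hy l
        have h3 : (0 : ℝ) ≤ ((cl N y l + N : ℤ) : ℝ) := by exact_mod_cast h2
        push_cast at h3
        constructor
        · linarith
        · nlinarith [h1.2]
      have h5 := hQL Y' y (1 / N) hY1 (hS y hy) hYd (by positivity)
      have h6 := hQS y hy
      have h7 : |∑ i, c' i * mon (e i) Y'| ≤ M := by
        have h8 : |∑ i, c' i * mon (e i) Y'| ≤
            |∑ i, c' i * mon (e i) Y' - ∑ i, c' i * mon (e i) y| + |∑ i, c' i * mon (e i) y| := by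
          have := abs_add_le (∑ i, c' i * mon (e i) Y' - ∑ i, c' i * mon (e i) y)
            (∑ i, c' i * mon (e i) y)
          rwa [sub_add_cancel] at this
        have h9 : M = Ls * (1 / N) + 1 / N := by rw [hM]; ring
        rw [h9]
        linarith
      rw [← e2] at h7
      exact h7
    · intro q hq q' hq' h
      obtain ⟨y, hy, rfl⟩ := Finset.mem_image.1 hq
      obtain ⟨y', hy', rfl⟩ := Finset.mem_image.1 hq'
      funext l
      have h1 := congrFun h l
      have h2 : (cl N y l + N).toNat % N' = (cl N y' l + N).toNat % N' := congrArg Fin.val h1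
      obtain ⟨a1, a2⟩ := hfl y hy l
      obtain ⟨b1, b2⟩ := hfl y' hy' l
      rw [Nat.mod_eq_of_lt (by omega), Nat.mod_eq_of_lt (by omega)] at h2
      omega
  have hdens : ρ' * (N' : ℝ) ^ k ≤ (good.card : ℝ) := by
    have h1 : (N' : ℝ) ≤ 4 * N := by
      rw [hN']
      push_cast
      have : (1 : ℝ) ≤ N := by exact_mod_cast hNpos
      linarith
    calc ρ' * (N' : ℝ) ^ k ≤ ρ' * (4 * N) ^ k :=
          mul_le_mul_of_nonneg_left (pow_le_pow_left₀ (Nat.cast_nonneg _) h1 k) hρ'0.le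
      _ = ρ * (N : ℝ) ^ k := by
          rw [hρ', mul_pow]
          field_simp
      _ ≤ ((S.image (cl N)).card : ℝ) := hcard
      _ ≤ good.card := by exact_mod_cast hinj
  have hρ'C : ρ' ^ C0 = ρ ^ C0 / (4 ^ k) ^ C0 := by rw [hρ', div_pow]
  have hcond : (C0 : ℝ) ≤ ρ' ^ C0 * N' := by
    have h1 : (C0 : ℝ) * (4 ^ k) ^ C0 ≤ Cb := by
      rw [hCb]
      push_cast
      have : (0 : ℝ) ≤ ⌈W⌉₊ := Nat.cast_nonneg _
      have : (0 : ℝ) ≤ C0 := Nat.cast_nonneg _
      linarith
    have h2 : (N : ℝ) ≤ N' := by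
      rw [hN']
      push_cast
      linarith
    rw [hρ'C, div_mul_eq_mul_div, le_div_iff₀ (by positivity)]
    calc (C0 : ℝ) * (4 ^ k) ^ C0 ≤ Cb := h1
      _ ≤ ρ ^ C0 * N := hN1
      _ ≤ ρ ^ C0 * N' := mul_le_mul_of_nonneg_left h2 (by positivity)
  have hres := hrmn N' (gp e N c') ρ' 1 M (fun l => degreeOf_gp e N c' j hje l) hρ'0 hρ'1 hcond
    le_rfl hM0 hdens
  have hsup : ∀ Y : Fin k → ℝ, (∀ l, |Y l| ≤ 1) →
      |∑ i, c' i * mon (e i) Y| ≤ C0 * (1 / ρ') ^ C0 * M := by
    intro Y hY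
    have h1 := hres (fun l => N * (Y l + 1)) (by
      intro l
      have h2 := abs_le.1 (hY l)
      rw [one_mul, abs_of_nonneg (mul_nonneg hN0 (by linarith [h2.1])), hN']
      push_cast
      nlinarith [h2.2])
    rw [eval_gp] at h1
    have h3 : (fun l => (N : ℝ) * (Y l + 1) / N - 1) = Y := by
      funext l
      field_simp
      ring
    rw [h3] at h1
    exact h1
  have hfin := hcoef c' (C0 * (1 / ρ') ^ C0 * M) (by positivity) hsup i0
  rw [hc2] at hfin
  have h1 : C1 * (C0 * (1 / ρ') ^ C0 * M) = W / (ρ ^ C0 * N) := by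
    rw [hW, hM, one_div, inv_pow, hρ'C]
    field_simp
  rw [h1, le_div_iff₀ (by positivity), one_mul] at hfin
  have h2 : W < Cb := by
    rw [hCb]
    push_cast
    have h3 := Nat.le_ceil W
    have : (0 : ℝ) ≤ C0 := Nat.cast_nonneg _
    have : (0 : ℝ) ≤ (C0 : ℝ) * (4 ^ k) ^ C0 := by positivity
    linarith
  linarith

/-- The exponents of total degree at most `K`. -/
theorem ex_inj (k K : ℕ) : Function.Injective (ex : Ix k K → Fin k → ℕ) := by
  intro a b h
  apply Subtype.ext
  funext l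
  exact Fin.ext (congrFun h l)

/-- Unisolvent points of a finite set which meets many cells, for every family of monomials of
degree at most `K`. -/
theorem un2_fin (k K : ℕ) : ∃ C : ℕ, 1 ≤ C ∧ ∀ (ι : Type) [Fintype ι] [DecidableEq ι]
      (e : ι → Fin k → ℕ) (N : ℕ) (ρ : ℝ) (S : Finset (Fin k → ℝ)),
      Function.Injective e → (∀ i, ∑ l, e i l ≤ K) →
      0 < ρ → ρ ≤ 1 → (C : ℝ) ≤ ρ ^ C * N → (∀ y ∈ S, ∀ l, |y l| ≤ 1) →
      (open Classical in ρ * (N : ℝ) ^ k ≤ ((S.image (cl N)).card : ℝ)) →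
      ∃ (z : ι → Fin k → ℝ) (A : ι → ι → ℝ), (∀ i, z i ∈ S) ∧ (∀ i j, |A i j| ≤ N) ∧
        (∀ v : ι → ℝ, ∀ i, ∑ j, mon (e j) (z i) * ∑ l, A j l * v l = v i) ∧
        (∀ v : ι → ℝ, ∀ i, ∑ j, A i j * ∑ l, mon (e l) (z j) * v l = v i) := by
  classical
  obtain ⟨C, hC, h⟩ := un2_coef (ex : Ix k K → Fin k → ℕ) (ex_inj k K)
  refine ⟨C, hC, fun ι _ _ e N ρ S he hK h1 h2 h3 h4 h5 => fek (fun i y => mon (e i) y) S N
    fun c hc i => ?_⟩
  have hlt : ∀ i l, e i l < K + 1 := by
    intro i l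
    have : e i l ≤ ∑ l, e i l :=
      Finset.single_le_sum (f := fun l => e i l) (fun _ _ => Nat.zero_le _) (Finset.mem_univ l)
    have := hK i
    omega
  let g : ι → Ix k K := fun i => ⟨fun l => ⟨e i l, hlt i l⟩, hK i⟩
  have hgi : Function.Injective g := by
    intro a b hab
    apply he
    funext l
    have := congrFun (congrArg Subtype.val hab) l
    exact congrArg Fin.val this
  have hge : ∀ i, ex (g i) = e i := fun i => rfl
  set c' : Ix k K → ℝ := fun x => ∑ i, if g i = x then c i else 0 with hc'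
  have hsum : ∀ y, ∑ x, c' x * mon (ex x) y = ∑ i, c i * mon (e i) y := by
    intro y
    rw [hc']
    simp only [Finset.sum_mul]
    rw [Finset.sum_comm]
    refine Finset.sum_congr rfl fun i _ => ?_
    rw [Finset.sum_eq_single (g i)]
    · rw [if_pos rfl, hge]
    · intro b _ hb
      rw [if_neg (Ne.symm hb), zero_mul]
    · intro h
      exact absurd (Finset.mem_univ _) h
  have h6 := h N ρ S h1 h2 h3 h4 h5 c' (fun y hy => by rw [hsum]; exact hc y hy) (g i)
  have h7 : c' (g i) = c i := by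
    rw [hc']
    simp only
    rw [Finset.sum_eq_single i]
    · rw [if_pos rfl]
    · intro b _ hb
      rw [if_neg]
      intro h8
      exact hb (hgi h8)
    · intro h
      exact absurd (Finset.mem_univ _) h
  rwa [h7] at h6

/-- The entropy, with an exceptional event. -/
theorem H_event {Ω S : Type} [Fintype Ω] {p : Ω → ℝ} (hp : IsLaw p) (X : Ω → S) (T : Set Ω)
    (F G : Finset S) (hF : ∀ ω ∈ T, 0 < p ω → X ω ∈ F) (hG : ∀ ω, 0 < p ω → X ω ∈ G) :
    H p X ≤ Real.log 2 + Pr p T * Real.log F.card + Pr p Tᶜ * Real.log G.card := by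
  classical
  set Z : Ω → Prop := fun ω => ω ∈ T with hZ
  have h1 : H p X ≤ H p (fun ω => (X ω, Z ω)) := H_mono hp.nonneg fun ω ω' _ _ h =>
    congrArg Prod.fst h
  have h2 : H p Z ≤ Real.log 2 := by
    have := H_le_log_card hp.nonneg hp.sum_one Z {True, False} (fun ω _ => by
      by_cases h : Z ω
      · rw [eq_true h]; simp
      · rw [eq_false h]; simp)
    refine this.trans (Real.log_le_log ?_ ?_)
    · have : 0 < ({True, False} : Finset Prop).card := Finset.card_pos.2 ⟨True, by simp⟩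
      exact_mod_cast this
    · have : ({True, False} : Finset Prop).card ≤ 2 := Finset.card_le_two
      exact_mod_cast this
  have h3 : H p (fun ω => (X ω, Z ω)) = CH p X Z + H p Z := by unfold CH; ring
  have h4 : CH p X Z ≤ Pr p T * Real.log F.card + Pr p Tᶜ * Real.log G.card := by
    rw [CH_eq_sum hp.nonneg]
    have hz : ∀ z : Prop, law p Z z ≠ 0 → z ∈ Finset.univ.image Z := by
      intro z hz
      by_contra h
      exact hz (law_eq_zero_of_notMem p Z h)
    have h5 : ∑ z ∈ Finset.univ.image Z, law p Z z * H (Pool.Agent.H49.Ent.cond p Z z) X ≤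
        ∑ z ∈ Finset.univ.image Z, (if z = True then Pr p T * Real.log F.card else
          Pr p Tᶜ * Real.log G.card) := by
      refine Finset.sum_le_sum fun z hz => ?_
      have hz0 : 0 ≤ law p Z z := law_nonneg hp.nonneg Z z
      have hlog : ∀ K : Finset S, 0 ≤ Real.log (K.card : ℝ) := fun K => Real.log_natCast_nonneg _
      by_cases hl : law p Z z = 0
      · rw [hl, zero_mul]
        have e1 : 0 ≤ Pr p T := law_nonneg hp.nonneg _ _
        have e2 : 0 ≤ Pr p Tᶜ := law_nonneg hp.nonneg _ _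
        split_ifs
        · exact mul_nonneg e1 (hlog F)
        · exact mul_nonneg e2 (hlog G)
      have hc := sum_cond p Z hl
      by_cases ht : z = True
      · rw [if_pos ht]
        subst ht
        refine mul_le_mul_of_nonneg_left ?_ hz0
        refine H_le_log_card (fun ω => cond_nonneg hp.nonneg Z _ ω) hc X F fun ω hω => ?_
        obtain ⟨h6, h7⟩ := (cond_pos_iff hp.nonneg Z _ ω).1 hω
        exact hF ω (of_eq_true h7) h6
      · rw [if_neg ht]
        have hf : z = False := by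
          by_cases h8 : z
          · exact absurd (eq_true h8) ht
          · exact eq_false h8
        subst hf
        have e1 : law p Z False = Pr p Tᶜ := by
          unfold Pr law
          refine Finset.sum_congr rfl fun ω _ => ?_
          by_cases h8 : ω ∈ T
          · rw [if_neg (by rw [hZ]; simp [h8]), if_neg (by simp [h8])]
          · rw [if_pos (by rw [hZ]; simp [h8]), if_pos (by simp [h8])]
        rw [e1]
        refine mul_le_mul_of_nonneg_left ?_ (by rw [← e1]; exact hz0)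
        refine H_le_log_card (fun ω => cond_nonneg hp.nonneg Z _ ω) hc X G fun ω hω => ?_
        obtain ⟨h6, -⟩ := (cond_pos_iff hp.nonneg Z _ ω).1 hω
        exact hG ω h6
    refine h5.trans ?_
    have h6 : Finset.univ.image Z ⊆ {True, False} := by
      intro z _
      by_cases h8 : z
      · rw [eq_true h8]; simp
      · rw [eq_false h8]; simp
    have hlog : ∀ K : Finset S, 0 ≤ Real.log (K.card : ℝ) := fun K => Real.log_natCast_nonneg _
    have e1 : 0 ≤ Pr p T := law_nonneg hp.nonneg _ _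
    have e2 : 0 ≤ Pr p Tᶜ := law_nonneg hp.nonneg _ _
    refine (Finset.sum_le_sum_of_subset_of_nonneg h6 fun z _ _ => ?_).trans ?_
    · split_ifs
      · exact mul_nonneg e1 (hlog F)
      · exact mul_nonneg e2 (hlog G)
    · rw [Finset.sum_pair (by simp)]
      simp
  linarith

/-- **Row UN2.** The law `q` has almost full entropy on the cells of side `1 / N`; then every event
`T` of probability at least `1 / 2` contains a unisolvent family of points, the inverse of the
matrix of the values of the monomials is bounded by `N`. -/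
theorem un2_law (k K : ℕ) : ∃ C : ℝ, 1 ≤ C ∧
      ∀ (ι : Type) [Fintype ι] [DecidableEq ι] (e : ι → Fin k → ℕ) (Ω : Type) [Fintype Ω]
        (q : Ω → ℝ) (y : Ω → Fin k → ℝ) (T : Set Ω) (N : ℕ) (h : ℝ),
        Function.Injective e → (∀ i, ∑ l, e i l ≤ K) → IsLaw q → (∀ ω, 0 < q ω → ∀ l, |y ω l| ≤ 1) → Pr q Tᶜ ≤ 1 / 2 → 1 ≤ N → 0 ≤ h →
        k * Real.log N - H q (fun ω => cl N (y ω)) ≤ h → C * (h + 1) ≤ Real.log N →
        ∃ (z : ι → Ω) (A : ι → ι → ℝ), (∀ i, z i ∈ T ∧ 0 < q (z i)) ∧ (∀ i j, |A i j| ≤ N) ∧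
          (∀ v : ι → ℝ, ∀ i, ∑ j, mon (e j) (y (z i)) * ∑ l, A j l * v l = v i) ∧
          (∀ v : ι → ℝ, ∀ i, ∑ j, A i j * ∑ l, mon (e l) (y (z j)) * v l = v i) := by
  classical
  obtain ⟨C, hC, hun⟩ := un2_fin k K
  have hC1 : (1 : ℝ) ≤ C := by exact_mod_cast hC
  have hl2 : 0 < Real.log 2 := Real.log_pos (by norm_num)
  have hl3 : 0 ≤ Real.log 4 := Real.log_nonneg (by norm_num)
  set B : ℝ := Real.log 2 + k * Real.log 4 + 1 with hB
  have hB1 : 1 ≤ B := by
    have : 0 ≤ k * Real.log 4 := by positivity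
    rw [hB]; linarith
  refine ⟨2 * C * B + Real.log C + 1, ?_, ?_⟩
  · have : 0 ≤ Real.log C := Real.log_nonneg hC1
    have : 0 ≤ 2 * C * B := by positivity
    linarith
  intro ι _ _ e Ω _ q y T N h he hK hq hy hT hN hh hH hlog
  have hNpos : (0 : ℝ) < N := by exact_mod_cast hN
  have hlC : 0 ≤ Real.log C := Real.log_nonneg hC1
  set ρ : ℝ := Real.exp (-(2 * (h + B))) with hρ
  have hρ0 : 0 < ρ := Real.exp_pos _
  have hρ1 : ρ ≤ 1 := by
    rw [hρ, Real.exp_le_one_iff]
    linarith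
  have hcond : (C : ℝ) ≤ ρ ^ C * N := by
    have h1 : Real.log C ≤ Real.log (ρ ^ C * N) := by
      rw [Real.log_mul (by positivity) hNpos.ne', Real.log_pow, hρ, Real.log_exp]
      have e1 : 0 ≤ C * h * (B - 1) := by
        have : 0 ≤ B - 1 := by linarith
        positivity
      have e2 : 0 ≤ Real.log C * h := by positivity
      nlinarith
    exact (Real.log_le_log_iff (by linarith) (by positivity)).1 h1
  set U := Finset.univ.filter (fun ω => ω ∈ T ∧ 0 < q ω) with hU
  set S := U.image y with hS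
  have hSy : ∀ u ∈ S, ∀ l, |u l| ≤ 1 := by
    intro u hu l
    obtain ⟨ω, hω, rfl⟩ := Finset.mem_image.1 hu
    exact hy ω (Finset.mem_filter.1 hω).2.2 l
  have hmany : ρ * (N : ℝ) ^ k ≤ ((S.image (cl N)).card : ℝ) := by
    by_contra hcon
    push Not at hcon
    set G : Finset (Fin k → ℤ) := Fintype.piFinset fun _ => Finset.Icc (-(N : ℤ)) N with hG
    have hev := H_event hq (fun ω => cl N (y ω)) T (S.image (cl N)) G (by
      intro ω hω hω2
      refine Finset.mem_image_of_mem _ (Finset.mem_image_of_mem _ ?_)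
      rw [hU, Finset.mem_filter]
      exact ⟨Finset.mem_univ _, hω, hω2⟩) (by
      intro ω hω
      rw [hG, Fintype.mem_piFinset]
      intro l
      have h1 := abs_le.1 (hy ω hω l)
      rw [Finset.mem_Icc]
      unfold cl
      constructor
      · rw [Int.le_floor]
        push_cast
        nlinarith [h1.1]
      · have h3 : ⌊(N : ℝ) * y ω l⌋ ≤ ⌊((N : ℤ) : ℝ)⌋ := by
          refine Int.floor_le_floor ?_
          push_cast
          nlinarith [h1.2]
        rwa [Int.floor_intCast] at h3)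
    have hPT : Pr q T + Pr q Tᶜ = 1 := by
      rw [← hq.sum_one]
      unfold Pr law
      rw [← Finset.sum_add_distrib]
      refine Finset.sum_congr rfl fun ω _ => ?_
      by_cases h8 : ω ∈ T
      · rw [if_pos (by simp [h8]), if_neg (by simp [h8]), add_zero]
      · rw [if_neg (by simp [h8]), if_pos (by simp [h8]), zero_add]
    have hP0 : 0 ≤ Pr q Tᶜ := law_nonneg hq.nonneg _ _
    have hP1 : 0 ≤ Pr q T := law_nonneg hq.nonneg _ _
    have hlN : 0 ≤ Real.log N := Real.log_nonneg (by exact_mod_cast hN)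
    have hGc : Real.log G.card ≤ k * Real.log 4 + k * Real.log N := by
      have h1 : G.card = (2 * N + 1) ^ k := by
        rw [hG, Fintype.card_piFinset]
        simp only [Int.card_Icc, Finset.prod_const, Finset.card_univ, Fintype.card_fin]
        congr 1
        omega
      rw [h1]
      push_cast
      rw [Real.log_pow, ← mul_add, ← Real.log_mul (by norm_num) hNpos.ne']
      refine mul_le_mul_of_nonneg_left (Real.log_le_log (by positivity) ?_) (Nat.cast_nonneg _)
      have : (1 : ℝ) ≤ N := by exact_mod_cast hN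
      linarith
    have hFc : Real.log ((S.image (cl N)).card : ℝ) ≤ k * Real.log N - 2 * (h + B) := by
      have hne : 0 < (S.image (cl N)).card := by
        rw [Finset.card_pos]
        by_contra h0
        rw [Finset.not_nonempty_iff_eq_empty] at h0
        have h1 : Pr q T = 0 := by
          unfold Pr law
          refine Finset.sum_eq_zero fun ω _ => ?_
          by_cases h8 : (ω ∈ T) = True
          · rw [if_pos h8]
            by_contra h9
            have h10 : 0 < q ω := lt_of_le_of_ne (hq.nonneg ω) (Ne.symm h9)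
            have h11 : cl N (y ω) ∈ S.image (cl N) :=
              Finset.mem_image_of_mem _ (Finset.mem_image_of_mem _ (by
                rw [hU, Finset.mem_filter]
                exact ⟨Finset.mem_univ _, of_eq_true h8, h10⟩))
            rw [h0] at h11
            exact absurd h11 (Finset.notMem_empty _)
          · rw [if_neg h8]
        linarith
      have h1 := Real.log_le_log (by exact_mod_cast hne : (0 : ℝ) < ((S.image (cl N)).card : ℝ))
        hcon.le
      rw [Real.log_mul hρ0.ne' (by positivity), Real.log_pow, hρ, Real.log_exp] at h1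
      linarith
    have h2 : Pr q T * Real.log ((S.image (cl N)).card : ℝ) ≤
        Pr q T * (k * Real.log N - 2 * (h + B)) := mul_le_mul_of_nonneg_left hFc hP1
    have h3 : Pr q Tᶜ * Real.log G.card ≤ Pr q Tᶜ * (k * Real.log 4 + k * Real.log N) :=
      mul_le_mul_of_nonneg_left hGc hP0
    have h4 : Pr q Tᶜ * (k * Real.log 4) ≤ k * Real.log 4 := by
      have h5 : 0 ≤ k * Real.log 4 := by positivity
      calc _ ≤ 1 * (k * Real.log 4) := mul_le_mul_of_nonneg_right (by linarith) h5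
        _ = _ := one_mul _
    have h5 : (h + B) ≤ Pr q T * (2 * (h + B)) := by
      have h6 : 1 / 2 ≤ Pr q T := by linarith
      have h7 : 0 ≤ h + B := by linarith
      nlinarith
    have h6 : Pr q T * (k * Real.log N) + Pr q Tᶜ * (k * Real.log N) = k * Real.log N := by
      rw [← add_mul, hPT, one_mul]
    nlinarith
  obtain ⟨z, A, hz, hA, h1, h2⟩ := hun ι e N ρ S he hK hρ0 hρ1 hcond hSy hmany
  have hz' : ∀ i, ∃ ω, ω ∈ U ∧ y ω = z i := fun i => Finset.mem_image.1 (hz i)
  choose w hw hwy using hz'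
  refine ⟨w, A, fun i => (Finset.mem_filter.1 (hw i)).2, hA, ?_, ?_⟩
  · simp only [hwy]
    exact h1
  · simp only [hwy]
    exact h2

/-- **Row UN2**, dyadic form. -/
theorem un2 (k K : ℕ) : ∃ (kap : ℝ) (K₀ : ℕ), 0 < kap ∧
      ∀ (ι : Type) [Fintype ι] [DecidableEq ι] (al : ι → Fin k → ℕ) (Ky : ℕ) (Ω : Type)
        [Fintype Ω] (p : Ω → ℝ) (y : Ω → Fin k → ℝ) (T : Set Ω),
        Function.Injective al → (∀ i, ∑ l, al i l ≤ K) → K₀ ≤ Ky → IsLaw p →
        (∀ ω, 0 < p ω → ∀ l, |y ω l| ≤ 1) →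
        (k - kap) * (Ky * Real.log 2) ≤ H p (fun ω (l : Fin k) => ⌊(2 : ℝ) ^ Ky * y ω l⌋) →
        Pr p Tᶜ ≤ 1 / 2 →
        ∃ (z : ι → Ω) (N : ι → ι → ℝ), (∀ i, z i ∈ T ∧ 0 < p (z i)) ∧
          (∀ i j, |N i j| ≤ 2 ^ Ky) ∧
          (∀ v : ι → ℝ, ∀ i, ∑ j, mon (al j) (y (z i)) * ∑ l, N j l * v l = v i) ∧
          (∀ v : ι → ℝ, ∀ i, ∑ j, N i j * ∑ l, mon (al l) (y (z j)) * v l = v i) := by
  obtain ⟨C, hC, h⟩ := un2_law k K
  have hl2 : 0 < Real.log 2 := Real.log_pos (by norm_num)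
  refine ⟨1 / (2 * C), ⌈2 * C / Real.log 2⌉₊, by positivity, ?_⟩
  intro ι _ _ al Ky Ω _ p y T hal hsum hKy hp hy hH hT
  have h1 : 2 * C / Real.log 2 ≤ Ky := (Nat.le_ceil _).trans (by exact_mod_cast hKy)
  rw [div_le_iff₀ hl2] at h1
  have e1 : ((2 ^ Ky : ℕ) : ℝ) = (2 : ℝ) ^ Ky := by push_cast; rfl
  have e2 : Real.log ((2 ^ Ky : ℕ) : ℝ) = Ky * Real.log 2 := by rw [e1, Real.log_pow]
  have e3 : (fun ω => cl (2 ^ Ky) (y ω)) = fun ω (l : Fin k) => ⌊(2 : ℝ) ^ Ky * y ω l⌋ := by
    funext ω l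
    unfold cl
    rw [e1]
  have h2 := h ι al Ω p y T (2 ^ Ky) (1 / (2 * C) * (Ky * Real.log 2)) hal hsum hp hy hT
    Nat.one_le_two_pow (by positivity) (by rw [e2, e3]; linarith) (by
      rw [e2]
      have h3 : C * (1 / (2 * C) * (Ky * Real.log 2) + 1) = Ky * Real.log 2 / 2 + C := by
        field_simp
      rw [h3]
      linarith)
  obtain ⟨z, A, hz, hA, h3, h4⟩ := h2
  refine ⟨z, A, hz, fun i j => ?_, h3, h4⟩
  rw [← e1]
  exact hA i j

end Pool.SLP
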